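import Pool.Agent.helper74.VD.SpecA4
import Pool.Agent.helper74.VQ.SpecA

/-!
# Project VD (MP_07c750_an), row ATSD: the unit step (adapted from helper30/VQ/VTS.lean)
-/

set_option autoImplicit false

open scoped ContDiff Topology InnerProductSpace ComplexConjugate ENNReal
open MeasureTheory Filter Set

namespace Pool.Agent.VD

open Pool.Agent.VQ (CH cmZ)

noncomputable section

theorem ATSD_disc (Γ : Type) : @DiscreteMeasurableSpace Γ ⊤ := @DiscreteMeasurableSpace.mk Γ ⊤ (fun _ => trivial)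

/-- joint measurability -/
theorem ATSD_meas {d : ℕ} {Γ : Type} [Countable Γ] (f : YS Γ d × V d → ℂ)
    (hf : ∀ γ : Γ, Measurable fun x : P d × V d => f (((γ, x.1) : YS Γ d), x.2)) : Measurable f := by
  letI : MeasurableSpace Γ := ⊤
  haveI : DiscreteMeasurableSpace Γ := ATSD_disc Γ
  have h1 : Measurable fun w : Γ × (P d × V d) => f (((w.1, w.2.1) : YS Γ d), w.2.2) :=
    measurable_from_prod_countable_right hf
  have h2 : Measurable (fun x : (Γ × P d) × V d => ((x.1.1, (x.1.2, x.2)) : Γ × (P d × V d))) :=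
    (measurable_fst.comp measurable_fst).prodMk ((measurable_snd.comp measurable_fst).prodMk measurable_snd)
  exact h1.comp h2

theorem ATSD_rel {d : ℕ} {Γ : Type} [Group Γ] [Countable Γ] (S : Set Γ) :
    MeasurableSet {x : YS Γ d × YS Γ d | x.1.1⁻¹ * x.2.1 ∈ S} := by
  letI : MeasurableSpace Γ := ⊤
  haveI : DiscreteMeasurableSpace Γ := ATSD_disc Γ
  have h1 : Measurable (fun z : Γ × Γ => z.1⁻¹ * z.2) := measurable_of_countable _
  have h2 : Measurable (fun x : (Γ × P d) × (Γ × P d) => ((x.1.1, x.2.1) : Γ × Γ)) :=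
    (measurable_fst.comp measurable_fst).prodMk (measurable_fst.comp measurable_snd)
  exact (h1.comp h2) (MeasurableSet.of_discrete (s := S))

/-- the majorant of the part of the kernel outside the boxes -/
def ATSD_K (Γ : Type) (d : ℕ) [Group Γ] [MulAction Γ (V d)] (c κ : ℝ) (y y' : YS Γ d) : ENNReal :=
  {x : YS Γ d × YS Γ d | x.1.1⁻¹ * x.2.1 ∈ SG Γ d c}.indicator (fun _ => ENNReal.ofReal κ) (y, y')

theorem ATSD_Kpos {Γ : Type} {d : ℕ} [Group Γ] [MulAction Γ (V d)] (c κ : ℝ) (y y' : YS Γ d) (h : y.1⁻¹ * y'.1 ∈ SG Γ d c) :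
    ATSD_K Γ d c κ y y' = ENNReal.ofReal κ := by
  unfold ATSD_K
  exact indicator_of_mem (s := {x : YS Γ d × YS Γ d | x.1.1⁻¹ * x.2.1 ∈ SG Γ d c}) (a := (y, y')) h _

theorem ATSD_Kneg {Γ : Type} {d : ℕ} [Group Γ] [MulAction Γ (V d)] (c κ : ℝ) (y y' : YS Γ d) (h : y.1⁻¹ * y'.1 ∉ SG Γ d c) :
    ATSD_K Γ d c κ y y' = 0 := by
  unfold ATSD_K
  exact indicator_of_notMem (s := {x : YS Γ d × YS Γ d | x.1.1⁻¹ * x.2.1 ∈ SG Γ d c}) (a := (y, y')) h _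

/-- the Schur estimate -/
theorem ATSD_schur (hVSH : Pool.Agent.VQ.VSH_stmt) {d : ℕ} {Γ : Type} [Group Γ] [MulAction Γ (V d)] [Countable Γ]
    (G : V d → V d →L[ℝ] V d) (r0 R c κ CV : ℝ) (Λ : Subgroup Γ) (T : Set Γ)
    (hsf : SigmaFinite (mY Γ d)) (hmp : ∀ γ : Γ, MeasurePreserving (fun y : YS Γ d => γ • y) (mY Γ d) (mY Γ d))
    (hGW : MeasurableSet (GW Γ G r0 2 R)) (hDT : MeasurableSet (DT d T)) (hu : ∀ y : YS Γ d, ∃! γ : Λ, (γ : Γ) • y ∈ DT d T)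
    (hκ : 0 ≤ κ) (hvol : ∀ y : YS Γ d, mY Γ d {y' | y' ∈ GW Γ G r0 2 R ∧ y.1⁻¹ * y'.1 ∈ SG Γ d c} ≤ ENNReal.ofReal CV) (hCV : 0 ≤ CV)
    (hinv : ∀ γ ∈ SG Γ d c, γ⁻¹ ∈ SG Γ d c) (v w : YS Γ d → ℂ) (hvm : Measurable v) (hvi : ∀ γ ∈ Λ, ∀ y : YS Γ d, v (γ • y) = v y)
    (hvint : IntegrableOn (fun y => ‖v y‖ ^ 2) (DT d T ∩ GW Γ G r0 2 R) (mY Γ d))
    (hw : ∀ y ∈ GW Γ G r0 2 R, ‖w y‖ₑ ≤ ∫⁻ y' in GW Γ G r0 2 R, ATSD_K Γ d c κ y y' * ‖v y'‖ₑ ∂mY Γ d) :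
    nP G r0 T 2 R w ≤ (CV * κ) ^ 2 * nP G r0 T 2 R v := by
  haveI := hsf
  have hKm : Measurable (Function.uncurry (ATSD_K Γ d c κ)) := by
    exact measurable_const.indicator (ATSD_rel (SG Γ d c))
  have hKi : ∀ (γ : Λ) (x y : YS Γ d), ATSD_K Γ d c κ (γ • x) (γ • y) = ATSD_K Γ d c κ x y := by
    intro γ x y
    have h1 : ((γ : Γ) * x.1)⁻¹ * ((γ : Γ) * y.1) = x.1⁻¹ * y.1 := by group
    by_cases h : x.1⁻¹ * y.1 ∈ SG Γ d c
    · rw [ATSD_Kpos c κ x y h]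
      refine ATSD_Kpos c κ _ _ ?_
      show ((γ : Γ) * x.1)⁻¹ * ((γ : Γ) * y.1) ∈ SG Γ d c
      rw [h1]
      exact h
    · rw [ATSD_Kneg c κ x y h]
      refine ATSD_Kneg c κ _ _ ?_
      show ((γ : Γ) * x.1)⁻¹ * ((γ : Γ) * y.1) ∉ SG Γ d c
      rw [h1]
      exact h
  have hKb : ∀ p q, ATSD_K Γ d c κ p q ≤ ENNReal.ofReal κ := fun p q => by
    unfold ATSD_K
    exact indicator_le_self' (fun _ _ => bot_le) _
  have hst : ∀ (f : YS Γ d → ENNReal) (S : Set (YS Γ d)), (∀ q, f q ≤ ENNReal.ofReal κ) →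
      (∀ q, q ∉ S → f q = 0) → mY Γ d {q : YS Γ d | q ∈ GW Γ G r0 2 R ∧ q ∈ S} ≤ ENNReal.ofReal CV →
      ∫⁻ q in GW Γ G r0 2 R, f q ∂mY Γ d ≤ ENNReal.ofReal (CV * κ) := by
    intro f S hf1 hf2 hS
    calc ∫⁻ q in GW Γ G r0 2 R, f q ∂mY Γ d = ∫⁻ q, (GW Γ G r0 2 R).indicator f q ∂mY Γ d := (lintegral_indicator hGW f).symm
      _ ≤ ∫⁻ q, (toMeasurable (mY Γ d) {q : YS Γ d | q ∈ GW Γ G r0 2 R ∧ q ∈ S}).indicator (fun _ => ENNReal.ofReal κ) q ∂mY Γ d := by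
          refine lintegral_mono fun q => ?_
          by_cases h1 : q ∈ GW Γ G r0 2 R
          · by_cases h2 : q ∈ S
            · rw [indicator_of_mem h1, indicator_of_mem (subset_toMeasurable (mY Γ d) {q : YS Γ d | q ∈ GW Γ G r0 2 R ∧ q ∈ S} ⟨h1, h2⟩)]
              exact hf1 q
            · rw [indicator_of_mem h1, hf2 q h2]
              exact bot_le
          · rw [indicator_of_notMem h1]
            exact bot_le
      _ = ENNReal.ofReal κ * mY Γ d {q : YS Γ d | q ∈ GW Γ G r0 2 R ∧ q ∈ S} := by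
          rw [lintegral_indicator_const (measurableSet_toMeasurable _ _), measure_toMeasurable]
      _ ≤ ENNReal.ofReal κ * ENNReal.ofReal CV := by gcongr
      _ = ENNReal.ofReal (CV * κ) := by
          rw [← ENNReal.ofReal_mul hκ, mul_comm]
  have ha : ∀ p, ∫⁻ q, ATSD_K Γ d c κ p q ∂((mY Γ d).restrict (GW Γ G r0 2 R)) ≤ ENNReal.ofReal (CV * κ) := by
    intro p
    exact hst (fun q => ATSD_K Γ d c κ p q) {q | p.1⁻¹ * q.1 ∈ SG Γ d c}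
      (hKb p) (fun q hq => ATSD_Kneg c κ p q hq) (hvol p)
  have hb : ∀ q, ∫⁻ p, ATSD_K Γ d c κ p q ∂((mY Γ d).restrict (GW Γ G r0 2 R)) ≤ ENNReal.ofReal (CV * κ) := by
    intro q
    refine hst (fun p => ATSD_K Γ d c κ p q) {p | p.1⁻¹ * q.1 ∈ SG Γ d c}
      (fun p => hKb p q) (fun p hp => ATSD_Kneg c κ p q hp) ?_
    refine (measure_mono ?_).trans (hvol q)
    intro p hp
    refine ⟨hp.1, ?_⟩
    have h1 := hinv _ hp.2
    rw [mul_inv_rev, inv_inv] at h1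
    exact h1
  have hm : ∀ γ : Λ, MeasurePreserving (fun x : YS Γ d => γ • x)
      ((mY Γ d).restrict (GW Γ G r0 2 R)) ((mY Γ d).restrict (GW Γ G r0 2 R)) :=
    fun γ => (hmp (γ : Γ)).restrict_preimage hGW
  have hmain := (hVSH Λ (YS Γ d) (YS Γ d) ((mY Γ d).restrict (GW Γ G r0 2 R))
    ((mY Γ d).restrict (GW Γ G r0 2 R)) (DT d T) (DT d T) hm hm hu hu hDT hDT (ATSD_K Γ d c κ) hKm hKi).2
    (ENNReal.ofReal (CV * κ)) (ENNReal.ofReal (CV * κ)) (fun q => ‖v q‖ₑ) hvm.enorm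
    (fun γ y => by
      show ‖v ((γ : Γ) • y)‖ₑ = ‖v y‖ₑ
      rw [hvi γ γ.2]) ha hb
  rw [Measure.restrict_restrict hDT] at hmain
  have hPW : MeasurableSet (DT d T ∩ GW Γ G r0 2 R) := hDT.inter hGW
  have hfinal : ‖nP G r0 T 2 R w‖ₑ ≤ ENNReal.ofReal ((CV * κ) ^ 2 * nP G r0 T 2 R v) := by
    calc ‖nP G r0 T 2 R w‖ₑ ≤ ∫⁻ p in DT d T ∩ GW Γ G r0 2 R, ‖‖w p‖ ^ 2‖ₑ ∂mY Γ d := enorm_integral_le_lintegral_enorm _
      _ = ∫⁻ p in DT d T ∩ GW Γ G r0 2 R, ‖w p‖ₑ ^ 2 ∂mY Γ d := by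
          refine lintegral_congr fun p => ?_
          rw [enorm_pow, enorm_norm]
      _ ≤ ∫⁻ p in DT d T ∩ GW Γ G r0 2 R, (∫⁻ q in GW Γ G r0 2 R, ATSD_K Γ d c κ p q * ‖v q‖ₑ ∂mY Γ d) ^ 2 ∂mY Γ d := by
          refine setLIntegral_mono' hPW fun p hp => ?_
          exact pow_le_pow_left₀ bot_le (hw p hp.2) 2
      _ ≤ ENNReal.ofReal (CV * κ) * ENNReal.ofReal (CV * κ) * ∫⁻ q in DT d T ∩ GW Γ G r0 2 R, ‖v q‖ₑ ^ 2 ∂mY Γ d := hmain
      _ = ENNReal.ofReal ((CV * κ) ^ 2 * nP G r0 T 2 R v) := by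
          have h1 : ∫⁻ q in DT d T ∩ GW Γ G r0 2 R, ‖v q‖ₑ ^ 2 ∂mY Γ d = ENNReal.ofReal (nP G r0 T 2 R v) := by
            unfold nP
            rw [ofReal_integral_eq_lintegral_ofReal hvint
              (Eventually.of_forall fun p => by positivity)]
            refine lintegral_congr fun p => ?_
            rw [ENNReal.ofReal_pow (norm_nonneg _), ofReal_norm]
          rw [h1, ← ENNReal.ofReal_mul (by positivity), ← ENNReal.ofReal_mul (by positivity)]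
          congr 1
          ring
  have hnn : 0 ≤ nP G r0 T 2 R w := integral_nonneg fun p => by positivity
  have hnv : 0 ≤ nP G r0 T 2 R v := integral_nonneg fun p => by positivity
  rw [Real.enorm_of_nonneg hnn] at hfinal
  exact (ENNReal.ofReal_le_ofReal_iff (by positivity)).1 hfinal

/-- square integrability on the window -/
theorem ATSD_int {d : ℕ} {Γ : Type} [Group Γ] [MulAction Γ (V d)] (G : V d → V d →L[ℝ] V d) (r0 R : ℝ) (Λ : Subgroup Γ) (T : Set Γ)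
    (hli : ∀ f : YS Γ d → ENNReal, Measurable f → ∫⁻ y, f y ∂mY Γ d = ∑' γ : Γ, ∫⁻ p : P d, f (γ, p))
    (hGW : MeasurableSet (GW Γ G r0 2 R)) (hvol : volume {p : P d | ‖p.1‖ ≤ r0 ∧ |Ep G p| ≤ 2 * R ^ (-(1 / 4) : ℝ)} < ⊤)
    (hDTa : ∀ T' : Set Γ, MeasurableSet (DT d T')) (v : YS Γ d → ℂ) (hv : FP Λ T v) :
    IntegrableOn (fun y => ‖v y‖ ^ 2) (DT d T ∩ GW Γ G r0 2 R) (mY Γ d) := by
  obtain ⟨b, hb⟩ := hv.bdd
  obtain ⟨S, hS⟩ := hv.supp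
  have hm : MeasurableSet (DT d (S : Set Γ) ∩ GW Γ G r0 2 R) := (hDTa _).inter hGW
  have hfin : mY Γ d (DT d (S : Set Γ) ∩ GW Γ G r0 2 R) < ⊤ := by
    rw [← lintegral_indicator_one hm, hli _ (measurable_one.indicator hm)]
    have h1 : ∀ γ : Γ, γ ∉ S → ∫⁻ p : P d, (DT d (S : Set Γ) ∩ GW Γ G r0 2 R).indicator 1 ((γ, p) : YS Γ d) = 0 := by
      intro γ hγ
      have h2 : ∀ p : P d, (DT d (S : Set Γ) ∩ GW Γ G r0 2 R).indicator (1 : YS Γ d → ENNReal) ((γ, p) : YS Γ d) = 0 := by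
        intro p
        refine indicator_of_notMem ?_ _
        intro h
        exact hγ h.1
      simp only [h2, lintegral_zero]
    rw [tsum_eq_sum (s := S) h1]
    refine ENNReal.sum_lt_top.2 fun γ _ => ?_
    refine lt_of_le_of_lt ?_ hvol
    refine le_trans (lintegral_mono (g := (toMeasurable volume {p : P d | ‖p.1‖ ≤ r0 ∧ |Ep G p| ≤ 2 * R ^ (-(1 / 4) : ℝ)}).indicator 1) fun p => ?_) ?_
    · by_cases hp : ((γ, p) : YS Γ d) ∈ DT d (S : Set Γ) ∩ GW Γ G r0 2 R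
      · have h3 : p ∈ toMeasurable volume {p : P d | ‖p.1‖ ≤ r0 ∧ |Ep G p| ≤ 2 * R ^ (-(1 / 4) : ℝ)} := subset_toMeasurable _ _ hp.2
        exact le_trans (le_of_eq (indicator_of_mem hp (1 : YS Γ d → ENNReal))) (le_of_eq (indicator_of_mem h3 (1 : P d → ENNReal)).symm)
      · exact le_trans (le_of_eq (indicator_of_notMem hp (1 : YS Γ d → ENNReal))) bot_le
    · rw [lintegral_indicator_one (measurableSet_toMeasurable _ _), measure_toMeasurable]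
  refine Integrable.mono' (g := (DT d (S : Set Γ) ∩ GW Γ G r0 2 R).indicator fun _ => b ^ 2) ?_ ?_ ?_
  · refine (integrable_indicator_iff hm).2 (integrableOn_const ?_ (by finiteness))
    exact ((Measure.restrict_apply_le (s := DT d T ∩ GW Γ G r0 2 R) (t := DT d (S : Set Γ) ∩ GW Γ G r0 2 R)).trans_lt hfin).ne
  · exact (hv.meas.norm.pow_const 2).aestronglyMeasurable
  · refine (ae_restrict_iff' ((hDTa T).inter hGW)).2 (Eventually.of_forall fun p hp => ?_)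
    rw [Real.norm_of_nonneg (by positivity)]
    by_cases h0 : v p = 0
    · rw [h0, norm_zero, zero_pow two_ne_zero]
      exact indicator_nonneg (fun _ _ => sq_nonneg b) p
    · have hpS : p ∈ DT d (S : Set Γ) ∩ GW Γ G r0 2 R := ⟨hS p hp.1 h0, hp.2⟩
      rw [indicator_of_mem hpS]
      exact pow_le_pow_left₀ (norm_nonneg _) (hb p) 2

/-- differences -/
theorem ATSD_sub {d : ℕ} {Γ : Type} [Group Γ] [MulAction Γ (V d)] (Λ : Subgroup Γ) (T : Set Γ) (v w : YS Γ d → ℂ) (hv : FP Λ T v)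
    (hw : FP Λ T w) : FP Λ T (fun p => v p - w p) := by
  classical
  obtain ⟨b, hb⟩ := hv.bdd
  obtain ⟨b', hb'⟩ := hw.bdd
  obtain ⟨S, hS⟩ := hv.supp
  obtain ⟨S', hS'⟩ := hw.supp
  refine ⟨hv.meas.sub hw.meas, ⟨b + b', fun p => (norm_sub_le _ _).trans (add_le_add (hb p) (hb' p))⟩,
    fun γ hγ p => by rw [hv.inv γ hγ, hw.inv γ hγ], ⟨S ∪ S', fun p hp hne => ?_⟩⟩
  by_cases h : v p = 0
  · refine Finset.mem_union_right _ (hS' p hp ?_)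
    intro h'
    apply hne
    rw [h, h', sub_zero]
  · exact Finset.mem_union_left _ (hS p hp h)

/-- the triangle inequality -/
theorem ATSD_tri {d : ℕ} {Γ : Type} [Group Γ] [MulAction Γ (V d)] (G : V d → V d →L[ℝ] V d) (r0 R : ℝ) (T : Set Γ)
    (v w : YS Γ d → ℂ) (h1 : IntegrableOn (fun y => ‖v y‖ ^ 2) (DT d T ∩ GW Γ G r0 2 R) (mY Γ d))
    (h2 : IntegrableOn (fun y => ‖w y‖ ^ 2) (DT d T ∩ GW Γ G r0 2 R) (mY Γ d))
    (h3 : IntegrableOn (fun y => ‖v y - w y‖ ^ 2) (DT d T ∩ GW Γ G r0 2 R) (mY Γ d)) (s : ℝ) (hs : 0 < s) :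
    nP G r0 T 2 R v ≤ (1 + s) * nP G r0 T 2 R w + (1 + s⁻¹) * nP G r0 T 2 R (fun p => v p - w p) := by
  unfold nP
  rw [← integral_const_mul, ← integral_const_mul, ← integral_add (h2.const_mul _) (h3.const_mul _)]
  refine integral_mono h1 ((h2.const_mul _).add (h3.const_mul _)) fun p => ?_
  show ‖v p‖ ^ 2 ≤ (1 + s) * ‖w p‖ ^ 2 + (1 + s⁻¹) * ‖v p - w p‖ ^ 2
  have h4 : ‖v p‖ ≤ ‖w p‖ + ‖v p - w p‖ := by
    have h := norm_add_le (w p) (v p - w p)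
    rwa [add_sub_cancel] at h
  have h5 : 0 ≤ (Real.sqrt s * ‖w p‖ - (Real.sqrt s)⁻¹ * ‖v p - w p‖) ^ 2 := sq_nonneg _
  have h6 : Real.sqrt s ^ 2 = s := Real.sq_sqrt hs.le
  have h7 : Real.sqrt s ≠ 0 := (Real.sqrt_pos.2 hs).ne'
  have h8 : (Real.sqrt s * ‖w p‖ - (Real.sqrt s)⁻¹ * ‖v p - w p‖) ^ 2 =
      s * ‖w p‖ ^ 2 - 2 * (‖w p‖ * ‖v p - w p‖) + s⁻¹ * ‖v p - w p‖ ^ 2 := by
    have h9 : Real.sqrt s * (Real.sqrt s)⁻¹ = 1 := mul_inv_cancel₀ h7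
    have h10 : ((Real.sqrt s)⁻¹) ^ 2 = s⁻¹ := by rw [inv_pow, h6]
    calc (Real.sqrt s * ‖w p‖ - (Real.sqrt s)⁻¹ * ‖v p - w p‖) ^ 2 =
        Real.sqrt s ^ 2 * ‖w p‖ ^ 2 - 2 * (Real.sqrt s * (Real.sqrt s)⁻¹) * (‖w p‖ * ‖v p - w p‖) +
          ((Real.sqrt s)⁻¹) ^ 2 * ‖v p - w p‖ ^ 2 := by ring
      _ = _ := by rw [h9, h10, h6]; ring
  rw [h8] at h5
  calc ‖v p‖ ^ 2 ≤ (‖w p‖ + ‖v p - w p‖) ^ 2 := pow_le_pow_left₀ (norm_nonneg _) h4 2
    _ ≤ (1 + s) * ‖w p‖ ^ 2 + (1 + s⁻¹) * ‖v p - w p‖ ^ 2 := by linarith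

/-- Fubini for one packet -/
theorem ATSD_fub {d : ℕ} {Γ : Type} [Group Γ] [MulAction Γ (V d)] (ν : Measure (V d)) [SigmaFinite ν] (μ : Measure (YS Γ d)) [SigmaFinite μ]
    (W : Set (YS Γ d)) (hW : MeasurableSet W)
    (Gk : YS Γ d → V d → ℂ) (ψ : V d → ℂ) (v : YS Γ d → ℂ) (Z : Set (V d)) (S : Set (YS Γ d)) (hS : MeasurableSet S) (hZ : MeasurableSet Z)
    (hG : Measurable (fun x : YS Γ d × V d => Gk x.1 x.2)) (hψ : Measurable ψ) (hv : Measurable v)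
    (b m m' : ℝ) (hb : ∀ y, ‖v y‖ ≤ b) (hm : ∀ y ∈ W, ∀ z, ‖Gk y z‖ ≤ m) (hm' : ∀ z, ‖ψ z‖ ≤ m')
    (hs : ∀ y ∈ W, ∀ z, Gk y z ≠ 0 → ψ z ≠ 0 → y ∈ S ∧ z ∈ Z) (hZf : ν Z < ⊤) (hSf : (μ.restrict W) S < ⊤) :
    Integrable (fun y => (∫ z, conj (ψ z) * Gk y z ∂ν) * v y) (μ.restrict W) ∧
    ∫ z, (∫ y, v y * Gk y z ∂(μ.restrict W)) * conj (ψ z) ∂ν = ∫ y, (∫ z, conj (ψ z) * Gk y z ∂ν) * v y ∂(μ.restrict W) := by
  have hint : Integrable (fun x : YS Γ d × V d => conj (ψ x.2) * Gk x.1 x.2 * v x.1) ((μ.restrict W).prod ν) := by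
    refine Integrable.mono' (g := (S ×ˢ Z).indicator fun _ => m' * m * b) ?_ ?_ ?_
    · refine (integrable_indicator_iff (hS.prod hZ)).2 (integrableOn_const ?_ (by finiteness))
      rw [Measure.prod_prod]
      exact (ENNReal.mul_lt_top hSf hZf).ne
    · refine Measurable.aestronglyMeasurable ?_
      exact (((Complex.continuous_conj.measurable.comp (hψ.comp measurable_snd))).mul hG).mul (hv.comp measurable_fst)
    · have h0 : (μ.restrict W).prod ν = (μ.prod ν).restrict (W ×ˢ univ) := by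
        have h := Measure.prod_restrict (μ := μ) (ν := ν) W univ
        rw [Measure.restrict_univ] at h
        exact h
      rw [h0]
      refine (ae_restrict_iff' (hW.prod MeasurableSet.univ)).2 (Eventually.of_forall fun x hxW => ?_)
      by_cases hx : x ∈ S ×ˢ Z
      · rw [indicator_of_mem hx, norm_mul, norm_mul, RCLike.norm_conj]
        have h1 : 0 ≤ m' := (norm_nonneg _).trans (hm' x.2)
        have h2 : 0 ≤ m := (norm_nonneg _).trans (hm x.1 hxW.1 x.2)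
        exact mul_le_mul (mul_le_mul (hm' _) (hm _ hxW.1 _) (norm_nonneg _) h1) (hb _)
          (norm_nonneg _) (mul_nonneg h1 h2)
      · rw [indicator_of_notMem hx]
        have h0 : conj (ψ x.2) * Gk x.1 x.2 * v x.1 = 0 := by
          by_contra hne
          apply hx
          have h1 : ψ x.2 ≠ 0 := by
            intro h
            apply hne
            rw [h, map_zero, zero_mul, zero_mul]
          have h2 : Gk x.1 x.2 ≠ 0 := by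
            intro h
            apply hne
            rw [h, mul_zero, zero_mul]
          exact hs x.1 hxW.1 x.2 h2 h1
        rw [h0, norm_zero]
  have h2 : ∀ q, ∫ z, conj (ψ z) * Gk q z * v q ∂ν = (∫ z, conj (ψ z) * Gk q z ∂ν) * v q :=
    fun q => integral_mul_const _ _
  constructor
  · have h1 := hint.integral_prod_left
    simp only [h2] at h1
    exact h1
  · have h3 := integral_integral_swap (μ := μ.restrict W) (ν := ν)
      (f := fun q z => conj (ψ z) * Gk q z * v q) hint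
    simp only [h2] at h3
    rw [h3]
    refine integral_congr_ae (Eventually.of_forall fun z => ?_)
    show (∫ q, v q * Gk q z ∂(μ.restrict W)) * conj (ψ z) = ∫ q, conj (ψ z) * Gk q z * v q ∂(μ.restrict W)
    rw [← integral_mul_const]
    refine integral_congr_ae (Eventually.of_forall fun q => ?_)
    show v q * Gk q z * conj (ψ z) = conj (ψ z) * Gk q z * v q
    ring

/-- one kernel -/
theorem ATSD_one {d : ℕ} {Γ : Type} [Group Γ] [MulAction Γ (V d)] (G : V d → V d →L[ℝ] V d) (r0 R c κ : ℝ)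
    (hsf : SigmaFinite (mY Γ d)) (hsv : SigmaFinite (mv G)) (hGW : MeasurableSet (GW Γ G r0 2 R))
    (Gk ψ : YS Γ d → V d → ℂ) (KT : YS Γ d → YS Γ d → ℂ) (v : YS Γ d → ℂ) (y : YS Γ d)
    (hvm : Measurable v) (hvb : ∃ b : ℝ, ∀ q, ‖v q‖ ≤ b)
    (hG : Measurable (fun x : YS Γ d × V d => Gk x.1 x.2)) (hψ : Measurable (ψ y)) (m m' : ℝ)
    (hm : ∀ q ∈ GW Γ G r0 2 R, ∀ z, ‖Gk q z‖ ≤ m) (hm' : ∀ z, ‖ψ y z‖ ≤ m')
    (hGs : ∀ q ∈ GW Γ G r0 2 R, ∀ z, Gk q z ≠ 0 → ‖q.1⁻¹ • z‖ ≤ c) (hψs : ∀ z, ψ y z ≠ 0 → ‖y.1⁻¹ • z‖ ≤ c)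
    (hSm : MeasurableSet {q : YS Γ d | y.1⁻¹ * q.1 ∈ SG Γ d c}) (hSf : mY Γ d {q | q ∈ GW Γ G r0 2 R ∧ y.1⁻¹ * q.1 ∈ SG Γ d c} < ⊤)
    (hZm : MeasurableSet {z : V d | ‖y.1⁻¹ • z‖ ≤ c}) (hZf : mv G {z : V d | ‖y.1⁻¹ • z‖ ≤ c} < ⊤)
    (hKTm : Measurable (KT y)) (hKT0 : ∀ q, KT y q ≠ 0 → q ∈ GW Γ G r0 2 R)
    (hKT : ∀ q ∈ GW Γ G r0 2 R, KT y q = (∫ z, conj (ψ y z) * Gk q z ∂mv G) ∨
      (KT y q = 0 ∧ ‖∫ z, conj (ψ y z) * Gk q z ∂mv G‖ ≤ κ)) :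
    ‖(∫ q, KT y q * v q ∂mY Γ d) - ∫ z, (∫ q in GW Γ G r0 2 R, v q * Gk q z ∂mY Γ d) * conj (ψ y z) ∂mv G‖ₑ ≤
      ∫⁻ q in GW Γ G r0 2 R, ATSD_K Γ d c κ y q * ‖v q‖ₑ ∂mY Γ d := by
  obtain ⟨b, hb⟩ := hvb
  haveI := hsf
  haveI := hsv
  have hrel : ∀ q ∈ GW Γ G r0 2 R, ∀ z, Gk q z ≠ 0 → ψ y z ≠ 0 → y.1⁻¹ * q.1 ∈ SG Γ d c := by
    intro q hq z h1 h2
    refine ⟨q.1⁻¹ • z, hGs q hq z h1, ?_⟩
    rw [smul_smul, mul_assoc, mul_inv_cancel, mul_one]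
    exact hψs z h2
  obtain ⟨hi, he⟩ := ATSD_fub (mv G) (mY Γ d) (GW Γ G r0 2 R) hGW Gk (ψ y) v {z : V d | ‖y.1⁻¹ • z‖ ≤ c}
    {q : YS Γ d | y.1⁻¹ * q.1 ∈ SG Γ d c} hSm hZm hG hψ hvm b m m' hb hm hm'
    (fun q hq z h1 h2 => ⟨hrel q hq z h1 h2, hψs z h2⟩) hZf (by
      rw [Measure.restrict_apply hSm]
      refine lt_of_le_of_lt (measure_mono ?_) hSf
      intro q hq
      exact ⟨hq.2, hq.1⟩)
  have hOp : ∫ q, KT y q * v q ∂mY Γ d = ∫ q in GW Γ G r0 2 R, KT y q * v q ∂mY Γ d := by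
    rw [← integral_indicator hGW]
    refine integral_congr_ae (Eventually.of_forall fun q => ?_)
    show KT y q * v q = (GW Γ G r0 2 R).indicator (fun q => KT y q * v q) q
    by_cases hq : q ∈ GW Γ G r0 2 R
    · rw [indicator_of_mem hq]
    · rw [indicator_of_notMem hq]
      have h0 : KT y q = 0 := by
        by_contra hne
        exact hq (hKT0 q hne)
      rw [h0, zero_mul]
  have hi2 : Integrable (fun q => KT y q * v q) ((mY Γ d).restrict (GW Γ G r0 2 R)) := by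
    refine Integrable.mono hi (hKTm.mul hvm).aestronglyMeasurable ?_
    refine (ae_restrict_iff' hGW).2 (Eventually.of_forall fun q hq => ?_)
    rcases hKT q hq with h | h
    · rw [h]
    · rw [h.1, zero_mul, norm_zero]
      exact norm_nonneg _
  rw [he, hOp, ← integral_sub hi2 hi]
  refine (enorm_integral_le_lintegral_enorm _).trans ?_
  refine setLIntegral_mono' hGW fun q hq => ?_
  rw [← sub_mul, enorm_mul]
  gcongr
  rcases hKT q hq with h | h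
  · rw [h, sub_self, enorm_zero]
    exact bot_le
  · rw [h.1, zero_sub, enorm_neg]
    by_cases h0 : (∫ z, conj (ψ y z) * Gk q z ∂mv G) = 0
    · rw [h0, enorm_zero]
      exact bot_le
    · obtain ⟨z, hz⟩ : ∃ z, conj (ψ y z) * Gk q z ≠ 0 := by
        by_contra hcon
        push Not at hcon
        apply h0
        simp only [hcon, integral_zero]
      have h1 : ψ y z ≠ 0 := by
        intro h
        apply hz
        rw [h, map_zero, zero_mul]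
      have h2 : Gk q z ≠ 0 := by
        intro h
        apply hz
        rw [h, mul_zero]
      rw [ATSD_Kpos c κ y q (hrel q hq z h2 h1), ← ofReal_norm]
      exact ENNReal.ofReal_le_ofReal h.2

theorem ATSD_DT {d : ℕ} {Γ : Type} (T : Set Γ) : MeasurableSet (DT d T) := by
  letI : MeasurableSpace Γ := ⊤
  haveI : DiscreteMeasurableSpace Γ := ATSD_disc Γ
  exact (measurable_fst : Measurable (fun y : Γ × P d => y.1)) (MeasurableSet.of_discrete (s := T))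

/-- comparison of powers -/
theorem ATSD_num (R : ℝ) (hR1 : (9 : ℝ) ^ (40 : ℕ) ≤ R) :
    (1 + R ^ (-4 : ℝ)) * ((1 + R ^ (-(9 / 40) : ℝ)) ^ 2 * (1 + R ^ (-(1 / 4) : ℝ))) + (1 + (R ^ (-4 : ℝ))⁻¹) * R ^ (-8 : ℝ) ≤
      (1 + R ^ (-(1 / 5) : ℝ)) ^ 2 := by
  have h1 : (1 : ℝ) ≤ R := le_trans (by norm_num) hR1
  have h0 : 0 < R := by linarith
  have hx0 : 0 < R ^ (-(9 / 40) : ℝ) := Real.rpow_pos_of_pos h0 _
  have hx1 : R ^ (-(9 / 40) : ℝ) ≤ 1 := Real.rpow_le_one_of_one_le_of_nonpos h1 (by norm_num)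
  have hy0 : 0 < R ^ (-(1 / 4) : ℝ) := Real.rpow_pos_of_pos h0 _
  have hyx : R ^ (-(1 / 4) : ℝ) ≤ R ^ (-(9 / 40) : ℝ) := Real.rpow_le_rpow_of_exponent_le h1 (by norm_num)
  have he0 : 0 < R ^ (-4 : ℝ) := Real.rpow_pos_of_pos h0 _
  have hex : R ^ (-4 : ℝ) ≤ R ^ (-(9 / 40) : ℝ) := Real.rpow_le_rpow_of_exponent_le h1 (by norm_num)
  have h8 : R ^ (-8 : ℝ) = R ^ (-4 : ℝ) * R ^ (-4 : ℝ) := by
    rw [← Real.rpow_add h0]
    norm_num
  have h5 : R ^ (-(1 / 5) : ℝ) = R ^ (-(9 / 40) : ℝ) * R ^ (1 / 40 : ℝ) := by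
    rw [← Real.rpow_add h0]
    norm_num
  have h20 : 9 ≤ R ^ (1 / 40 : ℝ) := by
    have h := Real.rpow_le_rpow (by norm_num) hR1 (by norm_num : (0 : ℝ) ≤ 1 / 40)
    have h' : ((9 : ℝ) ^ (40 : ℕ)) ^ (1 / 40 : ℝ) = 9 := by
      rw [← Real.rpow_natCast, ← Real.rpow_mul (by norm_num)]
      norm_num
    rwa [h'] at h
  have h9 : (1 + (R ^ (-4 : ℝ))⁻¹) * R ^ (-8 : ℝ) = R ^ (-4 : ℝ) * R ^ (-4 : ℝ) + R ^ (-4 : ℝ) := by
    rw [h8]
    field_simp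
  rw [h9, h5]
  set x := R ^ (-(9 / 40) : ℝ)
  set u := R ^ (-(1 / 4) : ℝ)
  set e := R ^ (-4 : ℝ)
  have h10 : e * e ≤ x := by nlinarith
  have h12 : (1 + e) * ((1 + x) ^ 2 * (1 + u)) ≤ (1 + x) * ((1 + x) ^ 2 * (1 + x)) := by
    refine mul_le_mul (by linarith) (mul_le_mul_of_nonneg_left (by linarith) (by positivity)) (by positivity) (by positivity)
  have h11 : x * 9 ≤ x * R ^ (1 / 40 : ℝ) := mul_le_mul_of_nonneg_left h20 hx0.le
  have h13 : (1 + x * 9) ^ 2 ≤ (1 + x * R ^ (1 / 40 : ℝ)) ^ 2 :=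
    pow_le_pow_left₀ (by positivity) (by linarith) 2
  have hx2 : x ^ 2 ≤ x := by nlinarith
  have hx3 : x ^ 3 ≤ x := by nlinarith [mul_nonneg hx0.le (mul_nonneg hx0.le hx0.le)]
  have hx4 : x ^ 4 ≤ x := by
    have : x ^ 4 = x ^ 2 * x ^ 2 := by ring
    nlinarith [sq_nonneg x]
  nlinarith

theorem ATSD_proof (hAULD : AULD_stmt) (hASAD : ASAD_stmt) (hAQAD : AQAD_stmt) (hAUMD : AUMD_stmt) (hAVOL : AVOL_stmt)
    (hAFMD : AFMD_stmt) (hAFRD : AFRD_stmt) (hAQSD : AQSD_stmt) (hADMD : ADMD_stmt) (hVSH : Pool.Agent.VQ.VSH_stmt)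
    (hAMVI : AMVI_stmt) (hASGF : ASGF_stmt) : ATSD_stmt := by
  intro d Γ _ _ K k B r0 χ hK hPU
  obtain ⟨C1, hC1, hAULD⟩ := hAULD d Γ K k B r0 χ hK hPU
  obtain ⟨C2, hC2, hASAD⟩ := hASAD d Γ K k B r0 χ hK hPU
  obtain ⟨C3, hC3, hAFMD⟩ := hAFMD d Γ K k B r0 χ hK hPU
  obtain ⟨C4, hC4, hAUMD⟩ := hAUMD d Γ K k B r0 χ hK hPU
  obtain ⟨C6, hC6, hAFRD⟩ := hAFRD d Γ K k B r0 hK
  obtain ⟨c, hcd⟩ : ∃ c, c = max C6 r0 := ⟨_, rfl⟩
  have hc6 : C6 ≤ c := hcd ▸ le_max_left _ _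
  have hcr : r0 ≤ c := hcd ▸ le_max_right _ _
  obtain ⟨CV, hCV, hAVOL⟩ := hAVOL d Γ K k B r0 c hK
  obtain ⟨-, hinv, -⟩ := hASGF d Γ K hK c 0
  refine ⟨C1 + C2 + C3 + C4 + 8, by linarith, ?_⟩
  intro ch A hch hA
  have hz := hA.z
  have hC : 0 < C1 + C2 + C3 + C4 + 8 := by linarith
  have hz1 : 0 < A.z1 := lt_of_lt_of_le (mul_pos hC hz) hA.z1
  have hz2 : 0 < A.z2 := lt_of_lt_of_le (mul_pos hC hz1) hA.z2
  have hz28 : 8 * A.z2 ≤ 1 := le_trans (mul_le_mul_of_nonneg_right (by linarith) hz2.le) hA.up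
  have hzz1 : 8 * A.z ≤ A.z1 := le_trans (mul_le_mul_of_nonneg_right (by linarith) hz.le) hA.z1
  have hzz2 : ∀ C' : ℝ, C' ≤ C1 + C2 + C3 + C4 + 8 → C' * A.z1 ≤ A.z2 := fun C' h =>
    le_trans (mul_le_mul_of_nonneg_right h hz1.le) hA.z2
  have h1z : C1 * A.z1 ≤ A.z2 := hzz2 C1 (by linarith)
  have h2z : C2 * A.z1 ≤ A.z2 := hzz2 C2 (by linarith)
  have h3z : C3 * A.z1 ≤ A.z2 := hzz2 C3 (by linarith)
  have h8z : 8 * A.z1 ≤ A.z2 := hzz2 8 (by linarith)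
  have hz8 : A.z ≤ 1 / 8 := by linarith
  have hAdm : Adm C4 A := ⟨hA.e2, le_trans (mul_le_mul_of_nonneg_right (by linarith) hA.e2.le) hA.e2', hz,
    le_trans (mul_le_mul_of_nonneg_right (by linarith) hz.le) hA.z1, hzz2 C4 (by linarith),
    le_trans (mul_le_mul_of_nonneg_right (by linarith) hz2.le) hA.up⟩
  obtain ⟨R1, hR1, hAULD⟩ := hAULD ch A.z A.z1 5 hch hz (by linarith) (by linarith)
  obtain ⟨R2, hR2, hASAD⟩ := hASAD ch A.z A.z1 hch hz (by linarith) (by linarith)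
  obtain ⟨R3, hR3, hAFMD⟩ := hAFMD ch 0 A.z A.z1 0 hch hz (by linarith) (by linarith)
  obtain ⟨R4, hR4, hAUMD⟩ := hAUMD ch A hch hAdm
  obtain ⟨R5, hR5, hAQSD⟩ := hAQSD d Γ K k B r0 χ ch A.z hK hPU hch hz hz8
  obtain ⟨R6, hR6, hAQAD⟩ := hAQAD d Γ K k B r0 χ ch A.z hK hPU hch hz hz8
  refine ⟨R1 + R2 + R3 + R4 + R5 + R6 + (9 : ℝ) ^ (40 : ℕ) + CV + C6, by
    have : (0 : ℝ) < (9 : ℝ) ^ (40 : ℕ) := by positivity
    linarith, ?_⟩
  intro R G Φ hR hO Λ F T v hD hv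
  have h940 : (0 : ℝ) < (9 : ℝ) ^ (40 : ℕ) := by positivity
  have hRbig : (9 : ℝ) ^ (40 : ℕ) ≤ R := by linarith
  have hR1' : 1 ≤ R := by linarith
  have hR0 : 0 < R := by linarith
  have hRV : CV ≤ R := by linarith
  have hcls := hO.cls
  obtain ⟨hcnt, -, -, hsv, hcpt, hmpv, -, -, -⟩ := hAMVI d Γ K k B G hK hcls
  haveI := hcnt
  obtain ⟨hsf, hmp, -, hli, hWin, hDm⟩ := hADMD d Γ K k B G hK hcls
  obtain ⟨hGW, -, hwin⟩ := hWin r0 2 R
  obtain ⟨-, hDT, -, hu⟩ := hDm Λ F T hD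
  obtain ⟨hfP, -, hfG, -, hpsi, hGpF⟩ := hAFMD R 1 G Φ (by linarith) hO (by norm_num)
  obtain ⟨hPb, hPi, hPD⟩ := hAFRD 0 (C3 * A.z1) (R ^ (3 * (d : ℝ) / 4 + C3 * A.z1)) R 1 G Φ
    (fP G Φ χ ch A.z A.z1 R 1) (by linarith) hO (by positivity) (by linarith) (by positivity) (by norm_num) hfP
  obtain ⟨hPs, hPa, -⟩ := hPD Λ F T hD
  obtain ⟨hKY, -, hus0, -, hOpFP, -, -⟩ := hAUMD R G Φ (by linarith) hO
  obtain ⟨hQc, hQs0, hQb, -, -, -, hQD⟩ := hAQSD R G (by linarith) hcls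
  obtain ⟨hQF, hQs, -⟩ := hQD Λ F T hD
  obtain ⟨hA1, hA2⟩ := hAQAD R G (by linarith) hcls Λ F T hD
  obtain ⟨hS1, hS2⟩ := hASAD R 1 G Φ (by linarith) hO (by norm_num) le_rfl Λ F T hD
  have hvol : ∀ y : YS Γ d, mY Γ d {y' | y' ∈ GW Γ G r0 2 R ∧ y.1⁻¹ * y'.1 ∈ SG Γ d c} ≤ ENNReal.ofReal CV := fun y =>
    (hAVOL R G Φ hR1' hO y 0 0 1 one_pos).2.1
  have hact : ∀ γ : Γ, Continuous fun z : V d => γ • z := fun γ => (hK.smooth γ).continuous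
  have hZm : ∀ y : YS Γ d, MeasurableSet {z : V d | ‖y.1⁻¹ • z‖ ≤ c} := fun y =>
    (isClosed_le ((hact y.1⁻¹).norm) continuous_const).measurableSet
  have hZf : ∀ y : YS Γ d, mv G {z : V d | ‖y.1⁻¹ • z‖ ≤ c} < ⊤ := by
    intro y
    have h1 := (hmpv y.1⁻¹).measure_preimage (s := Metric.closedBall (0 : V d) c) measurableSet_closedBall.nullMeasurableSet
    have h2 : (fun x : V d => y.1⁻¹ • x) ⁻¹' Metric.closedBall (0 : V d) c = {z : V d | ‖y.1⁻¹ • z‖ ≤ c} := by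
      ext z
      simp
    rw [h2] at h1
    rw [h1]
    exact hcpt _ (isCompact_closedBall _ _)
  have hSm : ∀ y : YS Γ d, MeasurableSet {q : YS Γ d | y.1⁻¹ * q.1 ∈ SG Γ d c} := fun y =>
    ATSD_DT {γ : Γ | y.1⁻¹ * γ ∈ SG Γ d c}
  have hκ : (0 : ℝ) ≤ R ^ (-5 : ℝ) := by positivity
  have hκ2 : (CV * R ^ (-5 : ℝ)) ^ 2 ≤ R ^ (-8 : ℝ) := by
    have h1 : CV * R ^ (-5 : ℝ) ≤ R ^ (-4 : ℝ) := by
      have h2 : R ^ (-4 : ℝ) = R * R ^ (-5 : ℝ) := by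
        nth_rewrite 2 [← Real.rpow_one R]
        rw [← Real.rpow_add hR0]
        norm_num
      rw [h2]
      exact mul_le_mul_of_nonneg_right (by linarith) hκ
    have h3 : R ^ (-8 : ℝ) = (R ^ (-4 : ℝ)) ^ 2 := by
      rw [← Real.rpow_natCast, ← Real.rpow_mul hR0.le]
      norm_num
    rw [h3]
    exact pow_le_pow_left₀ (by positivity) h1 2
  have hnv : 0 ≤ nP G r0 T 2 R v := integral_nonneg fun p => by positivity
  have hGm : Measurable (fun x : YS Γ d × V d => Gp G χ ch A.z R x.1 x.2) :=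
    ATSD_meas _ fun γ => (hQc γ).measurable
  have hPm : Measurable (fun x : YS Γ d × V d => pF (fP G Φ χ ch A.z A.z1 R 1) x.1 x.2) := by
    refine ATSD_meas _ fun γ => ?_
    have h1 := (hfP.cont γ).comp ((continuous_fst).prodMk ((hact γ⁻¹).comp continuous_snd) : Continuous fun x : P d × V d => ((x.1, γ⁻¹ • x.2) : P d × V d))
    exact h1.measurable
  have hvint := ATSD_int G r0 R Λ T hli hGW hwin (fun T' => ATSD_DT T') v hv
  have hsch := fun w => ATSD_schur hVSH G r0 R c (R ^ (-5 : ℝ)) CV Λ T hsf hmp hGW hDT hu hκ hvol (by linarith) hinv v w hv.meas hv.inv hvint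
  have hr : R ^ (-(1 / 2) + C1 * A.z1) ≤ A.r R := Real.rpow_le_rpow_of_exponent_le hR1' (by linarith)
  have hker : ∀ y ∈ GW Γ G r0 2 R, ∀ q ∈ GW Γ G r0 2 R, us G Φ r0 χ ch A R y q = (∫ z, conj (psi G Φ χ ch A.z A.z1 R 1 y z) * Gp G χ ch A.z R q z ∂mv G) ∨
      (us G Φ r0 χ ch A R y q = 0 ∧ ‖∫ z, conj (psi G Φ χ ch A.z A.z1 R 1 y z) * Gp G χ ch A.z R q z ∂mv G‖ ≤ R ^ (-5 : ℝ)) := by
    intro y hy q hq
    by_cases hN : dist (Φ 1 y.2) (rel y q) < A.r R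
    · left
      unfold us
      rw [if_pos ⟨hy, hq, hN⟩]
    · right
      refine ⟨?_, ?_⟩
      · unfold us
        rw [if_neg (fun h => hN h.2.2)]
      · exact (hAULD R 1 G Φ y q (by linarith) hO (by norm_num) hy hq).2.2 (fun h => hN (h.trans_le hr))
  have husG : ∀ y q, us G Φ r0 χ ch A R y q ≠ 0 → y ∈ GW Γ G r0 2 R ∧ q ∈ GW Γ G r0 2 R := fun y q h =>
    ⟨(hus0 y q h).1.1, (hus0 y q h).1.2.1⟩
  obtain ⟨hOp1, hOp2⟩ := hOpFP (us G Φ r0 χ ch A R) Λ F T v hD hKY husG hv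
  have hm1 : ∀ y : YS Γ d, Measurable (us G Φ r0 χ ch A R y) := fun y => hKY.meas.of_uncurry_left
  have hm2 : ∀ q : YS Γ d, Measurable (fun x => us G Φ r0 χ ch A R x q) := fun q => hKY.meas.of_uncurry_right
  have hm3 : ∀ q : YS Γ d, Measurable (fun x => conj (us G Φ r0 χ ch A R x q)) := fun q => Complex.continuous_conj.measurable.comp (hm2 q)
  have hm4 : ∀ y : YS Γ d, Measurable (Gp G χ ch A.z R y) := fun y =>
    hGm.comp (measurable_const.prodMk measurable_id : Measurable fun z : V d => ((y, z) : YS Γ d × V d))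
  have hm5 : ∀ y : YS Γ d, Measurable (pF (fP G Φ χ ch A.z A.z1 R 1) y) := fun y =>
    hPm.comp (measurable_const.prodMk measurable_id : Measurable fun z : V d => ((y, z) : YS Γ d × V d))
  -- first estimate
  have hone : nP G r0 T 2 R (fun y => Op (us G Φ r0 χ ch A R) v y - aF G r0 R (fP G Φ χ ch A.z A.z1 R 1) (Qs G r0 χ ch A.z R v) y) ≤ R ^ (-8 : ℝ) * nP G r0 T 2 R v := by
    refine (hsch _ ?_).trans (mul_le_mul_of_nonneg_right hκ2 hnv)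
    intro y hy
    have h1 := ATSD_one G r0 R c (R ^ (-5 : ℝ)) hsf hsv hGW (Gp G χ ch A.z R) (pF (fP G Φ χ ch A.z A.z1 R 1)) (us G Φ r0 χ ch A R) v y
      hv.meas hv.bdd hGm (hm5 y) (R ^ (3 * (d : ℝ) / 4 + A.z)) (R ^ (3 * (d : ℝ) / 4 + C3 * A.z1))
      (fun q _ z => hQb q z) (fun z => (hPb y hy z).1) (fun q _ z hne => ((hQs0 q z hne).2.2).trans hcr)
      (fun z hne => ((hPb y hy z).2 hne).1.trans hc6) (hSm y) ((hvol y).trans_lt ENNReal.ofReal_lt_top) (hZm y) (hZf y)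
      (hm1 y) (fun q hne => (husG y q hne).2)
      (fun q hq => by
        have h2 := hker y hy q hq
        simp only [hpsi]
        exact h2)
    have h3 : aF G r0 R (fP G Φ χ ch A.z A.z1 R 1) (Qs G r0 χ ch A.z R v) y =
        ∫ z, (∫ q in GW Γ G r0 2 R, v q * Gp G χ ch A.z R q z ∂mY Γ d) * conj (pF (fP G Φ χ ch A.z A.z1 R 1) y z) ∂mv G := by
      unfold aF
      rw [indicator_of_mem hy]
      rfl
    rw [h3]
    exact h1
  have hthree : nP G r0 T 2 R (fun q => (∫ x, v x * conj (us G Φ r0 χ ch A R x q) ∂mY Γ d) - QF G χ ch A.z R (sF G r0 R (fP G Φ χ ch A.z A.z1 R 1) v) q) ≤ R ^ (-8 : ℝ) * nP G r0 T 2 R v := by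
    refine (hsch _ ?_).trans (mul_le_mul_of_nonneg_right hκ2 hnv)
    intro q hq
    have h1 := ATSD_one G r0 R c (R ^ (-5 : ℝ)) hsf hsv hGW (pF (fP G Φ χ ch A.z A.z1 R 1)) (Gp G χ ch A.z R) (fun q x => conj (us G Φ r0 χ ch A R x q)) v q
      hv.meas hv.bdd hPm (hm4 q) (R ^ (3 * (d : ℝ) / 4 + C3 * A.z1)) (R ^ (3 * (d : ℝ) / 4 + A.z))
      (fun y hy z => (hPb y hy z).1) (fun z => hQb q z) (fun y hy z hne => ((hPb y hy z).2 hne).1.trans hc6)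
      (fun z hne => ((hQs0 q z hne).2.2).trans hcr) (hSm q) ((hvol q).trans_lt ENNReal.ofReal_lt_top) (hZm q) (hZf q)
      (hm3 q) (fun x hne => by
        refine (husG x q ?_).1
        intro h
        apply hne
        show conj (us G Φ r0 χ ch A R x q) = 0
        rw [h, map_zero])
      (fun x hx => by
        have h2 := hker x hx q hq
        have h4 : (∫ z, conj (Gp G χ ch A.z R q z) * pF (fP G Φ χ ch A.z A.z1 R 1) x z ∂mv G) =
            conj (∫ z, conj (psi G Φ χ ch A.z A.z1 R 1 x z) * Gp G χ ch A.z R q z ∂mv G) := by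
          rw [← integral_conj]
          refine integral_congr_ae (Eventually.of_forall fun z => ?_)
          simp only [map_mul, Complex.conj_conj, hpsi]
          ring
        rw [h4]
        rcases h2 with h2 | h2
        · left
          show conj (us G Φ r0 χ ch A R x q) = _
          rw [h2]
        · right
          refine ⟨?_, ?_⟩
          · show conj (us G Φ r0 χ ch A R x q) = 0
            rw [h2.1, map_zero]
          · rw [RCLike.norm_conj]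
            exact h2.2)
    have h5 : (∫ x, v x * conj (us G Φ r0 χ ch A R x q) ∂mY Γ d) = ∫ x, conj (us G Φ r0 χ ch A R x q) * v x ∂mY Γ d :=
      integral_congr_ae (Eventually.of_forall fun x => mul_comm _ _)
    rw [h5]
    exact h1
  have hnum := ATSD_num R hRbig
  have hs4 : 0 < R ^ (-4 : ℝ) := by positivity
  have hu0 : 0 ≤ R ^ (-(1 / 4) : ℝ) := by positivity
  have hfin : ∀ x y a : ℝ, x ≤ (1 + R ^ (-(9 / 40) : ℝ)) ^ 2 * (1 + R ^ (-(1 / 4) : ℝ)) * nP G r0 T 2 R v → y ≤ R ^ (-8 : ℝ) * nP G r0 T 2 R v →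
      a ≤ (1 + R ^ (-4 : ℝ)) * x + (1 + (R ^ (-4 : ℝ))⁻¹) * y → a ≤ (1 + R ^ (-(1 / 5) : ℝ)) ^ 2 * nP G r0 T 2 R v := by
    intro x y a hx hy ha
    calc a ≤ (1 + R ^ (-4 : ℝ)) * x + (1 + (R ^ (-4 : ℝ))⁻¹) * y := ha
      _ ≤ (1 + R ^ (-4 : ℝ)) * ((1 + R ^ (-(9 / 40) : ℝ)) ^ 2 * (1 + R ^ (-(1 / 4) : ℝ)) * nP G r0 T 2 R v) +
          (1 + (R ^ (-4 : ℝ))⁻¹) * (R ^ (-8 : ℝ) * nP G r0 T 2 R v) := by gcongr
      _ = ((1 + R ^ (-4 : ℝ)) * ((1 + R ^ (-(9 / 40) : ℝ)) ^ 2 * (1 + R ^ (-(1 / 4) : ℝ))) + (1 + (R ^ (-4 : ℝ))⁻¹) * R ^ (-8 : ℝ)) *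
          nP G r0 T 2 R v := by ring
      _ ≤ _ := mul_le_mul_of_nonneg_right hnum hnv
  have hint := fun w (hw : FP Λ T w) => ATSD_int G r0 R Λ T hli hGW hwin (fun T' => ATSD_DT T') w hw
  refine ⟨hone, ?_, hthree, ?_⟩
  · have hw := hPa _ (hQs v hv)
    have h1 := ATSD_tri G r0 R T (Op (us G Φ r0 χ ch A R) v) (aF G r0 R (fP G Φ χ ch A.z A.z1 R 1) (Qs G r0 χ ch A.z R v))
      (hint _ hOp1) (hint _ hw) (hint _ (ATSD_sub Λ T _ _ hOp1 hw)) (R ^ (-4 : ℝ)) hs4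
    refine hfin _ _ _ ?_ hone h1
    refine (hS2 _ (hQs v hv)).trans ?_
    rw [mul_assoc]
    exact mul_le_mul_of_nonneg_left (hA2 v hv) (by positivity)
  · have hw := (hQF _ (hPs v hv)).1
    have h1 := ATSD_tri G r0 R T (fun q => ∫ x, v x * conj (us G Φ r0 χ ch A R x q) ∂mY Γ d) (QF G χ ch A.z R (sF G r0 R (fP G Φ χ ch A.z A.z1 R 1) v))
      (hint _ hOp2) (hint _ hw) (hint _ (ATSD_sub Λ T _ _ hOp2 hw)) (R ^ (-4 : ℝ)) hs4
    refine hfin _ _ _ ?_ hthree h1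
    refine ((hA1 _ (hPs v hv)).1).trans ?_
    rw [mul_comm ((1 + R ^ (-(9 / 40) : ℝ)) ^ 2) (1 + R ^ (-(1 / 4) : ℝ)), mul_assoc]
    exact mul_le_mul_of_nonneg_left (hS1 v hv) (by positivity)

end

end Pool.Agent.VD
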