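import Pool.Agent.helper62.VD.SpecL2
import Pool.Agent.helper73.VD.ATSD

/-!
# Project VD (MP_07c750_an), row AMAD: the mass of the rows
-/

set_option autoImplicit false

open scoped ContDiff Topology InnerProductSpace ComplexConjugate ENNReal
open MeasureTheory Filter Set

namespace Pool.Agent.VD

open Pool.Agent.VQ (CH cmZ)

noncomputable section

theorem AMAD_Dm (Γ : Type) (d : ℕ) [Group Γ] [MulAction Γ (V d)] : Dm (⊥ : Subgroup Γ) (univ : Set (V d)) (univ : Set Γ) :=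
  Or.inr ⟨rfl, rfl, rfl⟩

theorem AMAD_sub {Γ : Type} {d : ℕ} [Group Γ] [MulAction Γ (V d)] (a b : V d → ℂ) (ha : FH (⊥ : Subgroup Γ) univ a) (hb : FH (⊥ : Subgroup Γ) univ b) :
    FH (⊥ : Subgroup Γ) univ (fun z => a z - b z) := by
  obtain ⟨B1, h1⟩ := ha.supp
  obtain ⟨B2, h2⟩ := hb.supp
  refine ⟨ha.cont.sub hb.cont, fun γ hγ z => by rw [ha.inv γ hγ, hb.inv γ hγ], ⟨max B1 B2, fun z hz hne => ?_⟩⟩
  by_cases h : a z = 0
  · refine (h2 z hz ?_).trans (le_max_right _ _)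
    intro h'
    apply hne
    rw [h, h', sub_zero]
  · exact (h1 z hz h).trans (le_max_left _ _)

theorem AMAD_mul {Γ : Type} {d : ℕ} [Group Γ] [MulAction Γ (V d)] (c : ℂ) (a : V d → ℂ) (ha : FH (⊥ : Subgroup Γ) univ a) :
    FH (⊥ : Subgroup Γ) univ (fun z => c * a z) := by
  obtain ⟨B1, h1⟩ := ha.supp
  refine ⟨continuous_const.mul ha.cont, fun γ hγ z => by rw [ha.inv γ hγ], ⟨B1, fun z hz hne => ?_⟩⟩
  refine h1 z hz ?_
  intro h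
  apply hne
  rw [h, mul_zero]

theorem AMAD_nnc {d : ℕ} (G : V d → V d →L[ℝ] V d) (c : ℂ) (φ : V d → ℂ) :
    nn G univ (fun z => c * φ z) = ‖c‖ ^ 2 * nn G univ φ := by
  unfold nn
  rw [← integral_const_mul]
  refine integral_congr_ae (Eventually.of_forall fun z => ?_)
  show ‖c * φ z‖ ^ 2 = ‖c‖ ^ 2 * ‖φ z‖ ^ 2
  rw [norm_mul, mul_pow]

theorem AMAD_int {Γ : Type} {d : ℕ} [Group Γ] [MulAction Γ (V d)] (G : V d → V d →L[ℝ] V d) (hcpt : ∀ S : Set (V d), IsCompact S → mv G S < ⊤)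
    (φ : V d → ℂ) (hφ : FH (⊥ : Subgroup Γ) univ φ) : Integrable (fun z => ‖φ z‖ ^ 2) (mv G) := by
  haveI : IsFiniteMeasureOnCompacts (mv G) := ⟨fun S hS => hcpt S hS⟩
  obtain ⟨b, hb⟩ := hφ.supp
  refine Continuous.integrable_of_hasCompactSupport (hφ.cont.norm.pow 2) (HasCompactSupport.intro (isCompact_closedBall (0 : V d) b) fun z hz => ?_)
  by_contra hne
  apply hz
  rw [Metric.mem_closedBall, dist_zero_right]
  refine hb z (mem_univ z) ?_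
  intro h
  apply hne
  show ‖φ z‖ ^ 2 = 0
  rw [h, norm_zero, zero_pow two_ne_zero]

theorem AMAD_am (s a b : ℝ) (hs : 0 < s) : (a + b) ^ 2 ≤ (1 + s) * a ^ 2 + (1 + s⁻¹) * b ^ 2 := by
  have h : (1 + s) * a ^ 2 + (1 + s⁻¹) * b ^ 2 - (a + b) ^ 2 = s⁻¹ * (s * a - b) ^ 2 := by
    field_simp
    ring
  have h2 : 0 ≤ s⁻¹ * (s * a - b) ^ 2 := by positivity
  linarith

theorem AMAD_tri {Γ : Type} {d : ℕ} [Group Γ] [MulAction Γ (V d)] (G : V d → V d →L[ℝ] V d) (hcpt : ∀ S : Set (V d), IsCompact S → mv G S < ⊤)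
    (a b : V d → ℂ) (ha : FH (⊥ : Subgroup Γ) univ a) (hb : FH (⊥ : Subgroup Γ) univ b) (s : ℝ) (hs : 0 < s) :
    nn G univ a ≤ (1 + s) * nn G univ b + (1 + s⁻¹) * nn G univ (fun z => a z - b z) := by
  have h1 := (AMAD_int G hcpt a ha).integrableOn (s := univ)
  have h2 := (AMAD_int G hcpt b hb).integrableOn (s := univ)
  have h3 := (AMAD_int G hcpt _ (AMAD_sub a b ha hb)).integrableOn (s := univ)
  unfold nn
  rw [← integral_const_mul, ← integral_const_mul, ← integral_add (h2.const_mul _) (h3.const_mul _)]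
  refine integral_mono h1 ((h2.const_mul _).add (h3.const_mul _)) fun p => ?_
  show ‖a p‖ ^ 2 ≤ (1 + s) * ‖b p‖ ^ 2 + (1 + s⁻¹) * ‖a p - b p‖ ^ 2
  have h4 : ‖a p‖ ≤ ‖b p‖ + ‖a p - b p‖ := by
    have h := norm_add_le (b p) (a p - b p)
    rwa [add_sub_cancel] at h
  exact (pow_le_pow_left₀ (norm_nonneg _) h4 2).trans (AMAD_am s _ _ hs)

/-- the mass of a function which vanishes outside of the window -/
theorem AMAD_nP {d : ℕ} {Γ : Type} [Group Γ] [MulAction Γ (V d)] (G : V d → V d →L[ℝ] V d) (r0 R : ℝ) (v : YS Γ d → ℂ)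
    (hGW : MeasurableSet (GW Γ G r0 2 R)) (hint : IntegrableOn (fun y => ‖v y‖ ^ 2) (DT d (univ : Set Γ) ∩ GW Γ G r0 2 R) (mY Γ d))
    (h0 : ∀ y, y ∉ GW Γ G r0 2 R → v y = 0) : ∫⁻ y, ‖v y‖ₑ ^ 2 ∂mY Γ d = ENNReal.ofReal (nP G r0 univ 2 R v) := by
  have hset : DT d (univ : Set Γ) ∩ GW Γ G r0 2 R = GW Γ G r0 2 R := by
    ext y
    exact ⟨fun h => h.2, fun h => ⟨mem_univ _, h⟩⟩
  rw [hset] at hint
  unfold nP
  rw [hset, ofReal_integral_eq_lintegral_ofReal hint (Eventually.of_forall fun p => by positivity), ← lintegral_indicator hGW]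
  refine lintegral_congr fun y => ?_
  by_cases hy : y ∈ GW Γ G r0 2 R
  · rw [indicator_of_mem hy, ENNReal.ofReal_pow (norm_nonneg _), ofReal_norm]
  · rw [indicator_of_notMem hy, h0 y hy, enorm_zero, zero_pow two_ne_zero]

/-- the rows as functions of class `FP` -/
theorem AMAD_FP {d : ℕ} {Γ : Type} [Group Γ] (L : YS Γ d → YS Γ d → ℂ) (hL : KY L) (y : YS Γ d) :
    FP (⊥ : Subgroup Γ) univ (fun x => conj (L y x)) := by
  classical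
  obtain ⟨b, hb⟩ := hL.bdd
  obtain ⟨S, hS⟩ := hL.range
  refine ⟨Complex.continuous_conj.measurable.comp hL.meas.of_uncurry_left, ⟨b, fun x => ?_⟩, fun γ hγ x => ?_, ⟨S.image fun s => y.1 * s, fun x _ hne => ?_⟩⟩
  · rw [RCLike.norm_conj]
    exact hb y x
  · rw [Subgroup.mem_bot.1 hγ, one_smul]
  · have h1 : L y x ≠ 0 := by
      intro h
      apply hne
      rw [h, map_zero]
    refine Finset.mem_image.2 ⟨_, hS y x h1, ?_⟩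
    rw [mul_inv_cancel_left]

/-- numbers: the beam -/
theorem AMAD_num1 (R Q P2 u N D n0 n1 b C5 : ℝ) (hu0 : 0 < u) (hu1 : u ≤ 1) (hN : N ≤ Q) (hn0 : n0 ≤ (1 + u) * N + (1 + u⁻¹) * D)
    (hn1 : n1 ≤ (1 + u) * n0 + (1 + u⁻¹) * b ^ 2) (hA : 4 * (u⁻¹ * D) ≤ u * Q) (hB : 2 * (u⁻¹ * b ^ 2) ≤ u * Q) (hD : 0 ≤ D) (hQ : 0 ≤ Q) : n1 ≤ (1 + 5 * u) * Q := by
  have hv : 1 ≤ u⁻¹ := (one_le_inv₀ hu0).2 hu1
  have huv : u * u⁻¹ = 1 := mul_inv_cancel₀ hu0.ne'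
  have h1 : (1 + u) * n0 ≤ (1 + u) * ((1 + u) * N + (1 + u⁻¹) * D) := mul_le_mul_of_nonneg_left hn0 (by linarith)
  have h2 : (1 + u) * ((1 + u) * N) ≤ (1 + 3 * u) * Q := by
    calc (1 + u) * ((1 + u) * N) = (1 + u) * (1 + u) * N := by ring
      _ ≤ (1 + u) * (1 + u) * Q := mul_le_mul_of_nonneg_left hN (by positivity)
      _ ≤ (1 + 3 * u) * Q := mul_le_mul_of_nonneg_right (by nlinarith) hQ
  have h3 : (1 + u) * ((1 + u⁻¹) * D) ≤ 4 * (u⁻¹ * D) := by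
    calc (1 + u) * ((1 + u⁻¹) * D) ≤ 2 * ((2 * u⁻¹) * D) := by
          refine mul_le_mul (by linarith) (mul_le_mul_of_nonneg_right (by linarith) hD) (by positivity) (by norm_num)
      _ = 4 * (u⁻¹ * D) := by ring
  have h4 : (1 + u⁻¹) * b ^ 2 ≤ 2 * (u⁻¹ * b ^ 2) := by
    have : 0 ≤ b ^ 2 := sq_nonneg b
    nlinarith
  nlinarith

/-- numbers: the iteration -/
theorem AMAD_num2 (R : ℝ) (hR : (1931 : ℝ) ^ (32 : ℕ) ≤ R) (j : ℕ) (hj : (j : ℝ) ≤ Real.log R) :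
    (1 + R ^ (-(1 / 5) : ℝ)) ^ (2 * j) * ((1 + R ^ (-(1 / 4) : ℝ)) * (1 + 5 * R ^ (-(1 / 4) : ℝ))) ≤ 1 + R ^ (-(1 / 7) : ℝ) := by
  have h1 : (1 : ℝ) ≤ R := le_trans (by norm_num) hR
  have h0 : 0 < R := by linarith
  have hx0 : 0 < R ^ (-(1 / 5) : ℝ) := Real.rpow_pos_of_pos h0 _
  have hu0 : 0 < R ^ (-(1 / 4) : ℝ) := Real.rpow_pos_of_pos h0 _
  have hw0 : 0 < R ^ (-(7 / 40) : ℝ) := Real.rpow_pos_of_pos h0 _
  have huw : R ^ (-(1 / 4) : ℝ) ≤ R ^ (-(7 / 40) : ℝ) := Real.rpow_le_rpow_of_exponent_le h1 (by norm_num)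
  have h7 : R ^ (-(1 / 7) : ℝ) ≤ 1 := Real.rpow_le_one_of_one_le_of_nonpos h1 (by norm_num)
  have hw7 : 1931 * R ^ (-(7 / 40) : ℝ) ≤ R ^ (-(1 / 7) : ℝ) := by
    have h2 : R ^ (-(1 / 7) : ℝ) = R ^ (9 / 280 : ℝ) * R ^ (-(7 / 40) : ℝ) := by
      rw [← Real.rpow_add h0]
      norm_num
    rw [h2]
    refine mul_le_mul_of_nonneg_right ?_ hw0.le
    have h3 := Real.rpow_le_rpow (by norm_num) hR (by norm_num : (0 : ℝ) ≤ 9 / 280)
    have h4 : ((1931 : ℝ) ^ (32 : ℕ)) ^ (9 / 280 : ℝ) = (1931 : ℝ) ^ (288 / 280 : ℝ) := by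
      rw [← Real.rpow_natCast, ← Real.rpow_mul (by norm_num)]
      norm_num
    rw [h4] at h3
    refine le_trans ?_ h3
    have h5 := Real.rpow_le_rpow_of_exponent_le (by norm_num : (1 : ℝ) ≤ 1931) (by norm_num : (1 : ℝ) ≤ 288 / 280)
    rwa [Real.rpow_one] at h5
  have hw1 : R ^ (-(7 / 40) : ℝ) ≤ 1 / 1931 := by linarith
  have hlog : Real.log R ≤ R ^ (1 / 40 : ℝ) / (1 / 40) := Real.log_le_rpow_div h0.le (by norm_num)
  have hxw : R ^ (-(1 / 5) : ℝ) * R ^ (1 / 40 : ℝ) = R ^ (-(7 / 40) : ℝ) := by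
    rw [← Real.rpow_add h0]
    norm_num
  have ht : 2 * (j : ℝ) * R ^ (-(1 / 5) : ℝ) ≤ 80 * R ^ (-(7 / 40) : ℝ) := by
    have h2 : (j : ℝ) ≤ 40 * R ^ (1 / 40 : ℝ) := by
      have h3 : R ^ (1 / 40 : ℝ) / (1 / 40) = 40 * R ^ (1 / 40 : ℝ) := by ring
      linarith
    calc 2 * (j : ℝ) * R ^ (-(1 / 5) : ℝ) ≤ 2 * (40 * R ^ (1 / 40 : ℝ)) * R ^ (-(1 / 5) : ℝ) := by gcongr
      _ = 80 * (R ^ (-(1 / 5) : ℝ) * R ^ (1 / 40 : ℝ)) := by ring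
      _ = _ := by rw [hxw]
  have hpow : (1 + R ^ (-(1 / 5) : ℝ)) ^ (2 * j) ≤ 1 + 160 * R ^ (-(7 / 40) : ℝ) := by
    have h2 : (1 + R ^ (-(1 / 5) : ℝ)) ^ (2 * j) ≤ Real.exp (2 * (j : ℝ) * R ^ (-(1 / 5) : ℝ)) := by
      have h3 : 1 + R ^ (-(1 / 5) : ℝ) ≤ Real.exp (R ^ (-(1 / 5) : ℝ)) := by
        have := Real.add_one_le_exp (R ^ (-(1 / 5) : ℝ))
        linarith
      refine (pow_le_pow_left₀ (by positivity) h3 (2 * j)).trans (le_of_eq ?_)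
      rw [← Real.exp_nat_mul]
      push_cast
      rfl
    have h3 : Real.exp (2 * (j : ℝ) * R ^ (-(1 / 5) : ℝ)) ≤ Real.exp (80 * R ^ (-(7 / 40) : ℝ)) := Real.exp_le_exp.2 ht
    have h4 : 80 * R ^ (-(7 / 40) : ℝ) < 1 := by linarith
    have h5 := Real.exp_bound_div_one_sub_of_interval (by positivity : 0 ≤ 80 * R ^ (-(7 / 40) : ℝ)) h4
    have h6 : 1 / (1 - 80 * R ^ (-(7 / 40) : ℝ)) ≤ 1 + 160 * R ^ (-(7 / 40) : ℝ) := by
      rw [div_le_iff₀ (by linarith)]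
      nlinarith
    linarith
  set w := R ^ (-(7 / 40) : ℝ)
  set u := R ^ (-(1 / 4) : ℝ)
  have h10 : (1 + u) * (1 + 5 * u) ≤ 1 + 11 * w := by nlinarith
  have h11 : (1 + R ^ (-(1 / 5) : ℝ)) ^ (2 * j) * ((1 + u) * (1 + 5 * u)) ≤ (1 + 160 * w) * (1 + 11 * w) := by
    refine mul_le_mul hpow h10 (by positivity) (by positivity)
  nlinarith

/-- numbers: the difference of the packets -/
theorem AMAD_num3 (d : ℕ) (R P2 C5 D : ℝ) (hR1' : 1 ≤ R) (hP20 : 0 < P2) (hP2 : P2 = (2 * Real.pi) ^ d) (hC5 : 1 ≤ C5) (e2 : 4 * C5 * P2 ≤ R) (hD2 : D ≤ C5 * R ^ (-2 : ℝ)) :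
    4 * ((R ^ (-(1 / 4) : ℝ))⁻¹ * D) ≤ R ^ (-(1 / 4) : ℝ) * (R / (2 * Real.pi)) ^ d := by
  have hR0 : 0 < R := by linarith
  have hQe : (R / (2 * Real.pi)) ^ d = R ^ (d : ℝ) / P2 := by
    rw [div_pow, hP2, Real.rpow_natCast]
  have hui : (R ^ (-(1 / 4) : ℝ))⁻¹ = R ^ (1 / 4 : ℝ) := by
    rw [← Real.rpow_neg hR0.le]
    norm_num
  rw [hui, hQe]
  have e3 : R * R ^ (-7 / 4 : ℝ) ≤ R ^ (-(1 / 4) : ℝ) * R ^ (d : ℝ) := by
    have e4 : R * R ^ (-7 / 4 : ℝ) = R ^ (-3 / 4 : ℝ) := by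
      nth_rewrite 1 [← Real.rpow_one R]
      rw [← Real.rpow_add hR0]
      norm_num
    rw [e4, ← Real.rpow_add hR0]
    refine Real.rpow_le_rpow_of_exponent_le hR1' ?_
    have hd0 : (0 : ℝ) ≤ d := Nat.cast_nonneg d
    linarith
  have e5 : R ^ (1 / 4 : ℝ) * R ^ (-2 : ℝ) = R ^ (-7 / 4 : ℝ) := by
    rw [← Real.rpow_add hR0]
    norm_num
  calc 4 * (R ^ (1 / 4 : ℝ) * D) ≤ 4 * (R ^ (1 / 4 : ℝ) * (C5 * R ^ (-2 : ℝ))) := by gcongr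
    _ = (4 * C5 * P2) * R ^ (-7 / 4 : ℝ) / P2 := by
        rw [← e5]
        field_simp
    _ ≤ R * R ^ (-7 / 4 : ℝ) / P2 := by gcongr
    _ ≤ R ^ (-(1 / 4) : ℝ) * R ^ (d : ℝ) / P2 := by gcongr
    _ = _ := by rw [mul_div_assoc]

/-- numbers: the error of the beam -/
theorem AMAD_num4 (d : ℕ) (R P2 c ε η : ℝ) (hR1' : 1 ≤ R) (hP20 : 0 < P2) (hP2 : P2 = (2 * Real.pi) ^ d) (hPR : (2 * P2) ^ 4 ≤ R) (hc0 : 0 ≤ c)
    (hcR' : c ≤ R ^ (3 * (d : ℝ) / 4)) (hε2 : ε ^ 2 = R ^ (-((d : ℝ) / 2) - 1 + η)) (hη : η ≤ 1 / 8) :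
    2 * ((R ^ (-(1 / 4) : ℝ))⁻¹ * (c * ε) ^ 2) ≤ R ^ (-(1 / 4) : ℝ) * (R / (2 * Real.pi)) ^ d := by
  have hR0 : 0 < R := by linarith
  have hQe : (R / (2 * Real.pi)) ^ d = R ^ (d : ℝ) / P2 := by
    rw [div_pow, hP2, Real.rpow_natCast]
  have hui : (R ^ (-(1 / 4) : ℝ))⁻¹ = R ^ (1 / 4 : ℝ) := by
    rw [← Real.rpow_neg hR0.le]
    norm_num
  rw [hui, hQe]
  have e1 : (c * ε) ^ 2 ≤ R ^ ((d : ℝ) - 7 / 8) := by
    rw [mul_pow, hε2]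
    calc c ^ 2 * R ^ (-((d : ℝ) / 2) - 1 + η) ≤ (R ^ (3 * (d : ℝ) / 4)) ^ 2 * R ^ (-((d : ℝ) / 2) - 1 + η) := by gcongr
      _ = R ^ ((d : ℝ) - 1 + η) := by
          rw [← Real.rpow_natCast, ← Real.rpow_mul hR0.le, ← Real.rpow_add hR0]
          congr 1
          push_cast
          ring
      _ ≤ _ := Real.rpow_le_rpow_of_exponent_le hR1' (by linarith)
  have e2 : 2 * P2 ≤ R ^ (1 / 4 : ℝ) := by
    have h := Real.rpow_le_rpow (by positivity) hPR (by norm_num : (0 : ℝ) ≤ 1 / 4)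
    have h' : ((2 * P2) ^ (4 : ℕ)) ^ (1 / 4 : ℝ) = 2 * P2 := by
      rw [← Real.rpow_natCast, ← Real.rpow_mul (by positivity)]
      norm_num
    rwa [h'] at h
  have e3 : R ^ (1 / 4 : ℝ) * (R ^ (1 / 4 : ℝ) * R ^ ((d : ℝ) - 7 / 8)) = R ^ ((d : ℝ) - 3 / 8) := by
    rw [← Real.rpow_add hR0, ← Real.rpow_add hR0]
    congr 1
    ring
  have e4 : R ^ (-(1 / 4) : ℝ) * R ^ (d : ℝ) = R ^ ((d : ℝ) - 1 / 4) := by
    rw [← Real.rpow_add hR0]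
    congr 1
    ring
  calc 2 * (R ^ (1 / 4 : ℝ) * (c * ε) ^ 2) ≤ 2 * (R ^ (1 / 4 : ℝ) * R ^ ((d : ℝ) - 7 / 8)) := by gcongr
    _ = (2 * P2) * (R ^ (1 / 4 : ℝ) * R ^ ((d : ℝ) - 7 / 8)) / P2 := by field_simp
    _ ≤ R ^ (1 / 4 : ℝ) * (R ^ (1 / 4 : ℝ) * R ^ ((d : ℝ) - 7 / 8)) / P2 := by gcongr
    _ = R ^ ((d : ℝ) - 3 / 8) / P2 := by rw [e3]
    _ ≤ R ^ ((d : ℝ) - 1 / 4) / P2 := div_le_div_of_nonneg_right (Real.rpow_le_rpow_of_exponent_le hR1' (by linarith)) hP20.le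
    _ = _ := by rw [← mul_div_assoc, e4]

/-- the norm of the evolved packet -/
theorem AMAD_beam (h1 : ALWT_stmt) (h2 : AEND_stmt) (h4 : AQSD_stmt) (h5 : ALPN_stmt) (h6 : ALSY_stmt) (h10 : AFMD_stmt) (h11 : AMVI_stmt) (h13 : ABRD_stmt) :
    ∀ (d : ℕ) (Γ : Type) [Group Γ] [MulAction Γ (V d)] (K : Set (V d)) (k : ℝ) (B : ℕ → ℕ → ℝ) (r0 : ℝ) (χ : V d → ℝ), FdK Γ K → PU Γ r0 χ → ∃ C : ℝ, 1 ≤ C ∧ ∀ (ch : ℝ → ℝ) (ζ ζ1 : ℝ), CH ch → 0 < ζ → ζ ≤ ζ1 → C * ζ1 ≤ 1 / 8 →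
      ∃ R0 : ℝ, 1 ≤ R0 ∧ ∀ (R : ℝ) (G : V d → V d →L[ℝ] V d) (Φ : ℝ → P d → P d) (y : YS Γ d), R0 ≤ R → OKA Γ K k B G Φ → y ∈ GW Γ G r0 2 R →
        FH (⊥ : Subgroup Γ) univ (psi G Φ χ ch ζ ζ1 R 1 y) ∧ nn G univ (psi G Φ χ ch ζ ζ1 R 1 y) ≤ (1 + 5 * R ^ (-(1 / 4) : ℝ)) * (R / (2 * Real.pi)) ^ d := by
  intro d Γ _ _ K k B r0 χ hK hPU
  obtain ⟨C1, hC1, h1⟩ := h1 d Γ K k B r0 hK
  obtain ⟨C5, hC5, h5⟩ := h5 d Γ K k B r0
  obtain ⟨_, _, _, _, hLag⟩ := h6 d 0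
  obtain ⟨C10, hC10, h10⟩ := h10 d Γ K k B r0 χ hK hPU
  refine ⟨C1 + C10, by linarith, ?_⟩
  intro ch ζ ζ1 hch hζ hζζ hCζ
  have hζ1 : 0 < ζ1 := by linarith
  have hC1ζ : C1 * ζ1 ≤ 1 / 8 := by nlinarith
  have hC10ζ : C10 * ζ1 ≤ 1 / 8 := by nlinarith
  have hζ8 : ζ ≤ 1 / 8 := by nlinarith
  obtain ⟨R1, hR1, h1⟩ := h1 ch 0 ζ1 hch le_rfl hζ1 (by rw [mul_zero]; exact hζ1.le) (by linarith)
  obtain ⟨R4, hR4, h4⟩ := h4 d Γ K k B r0 χ ch ζ hK hPU hch hζ hζ8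
  obtain ⟨R10, hR10, h10⟩ := h10 ch 0 ζ ζ1 1 hch hζ hζζ (by linarith)
  obtain ⟨R13, hR13, h13⟩ := h13 d ch ζ hch hζ hζ8
  obtain ⟨P2, hP2⟩ : ∃ P2 : ℝ, P2 = (2 * Real.pi) ^ d := ⟨_, rfl⟩
  have hpi : 1 ≤ 2 * Real.pi := by linarith [Real.two_le_pi]
  have hP21 : 1 ≤ P2 := by rw [hP2]; exact one_le_pow₀ hpi
  have hP40 : 0 ≤ (2 * P2) ^ 4 := by positivity
  have hP50 : 0 ≤ 4 * C5 * P2 := by positivity
  refine ⟨R1 + R4 + R10 + R13 + 8 ^ 4 + (2 * P2) ^ 4 + 4 * C5 * P2, by linarith, ?_⟩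
  intro R G Φ y hR hO hy
  have hR1' : 1 ≤ R := by linarith
  have hR0 : 0 < R := by linarith
  have hcls := hO.cls
  obtain ⟨-, -, -, -, hcpt, -, -, -, -⟩ := h11 d Γ K k B G hK hcls
  have hu0 : 0 < R ^ (-(1 / 4) : ℝ) := Real.rpow_pos_of_pos hR0 _
  have hu1 : R ^ (-(1 / 4) : ℝ) ≤ 1 := Real.rpow_le_one_of_one_le_of_nonpos hR1' (by norm_num)
  have hu8 : R ^ (-(1 / 4) : ℝ) ≤ 1 / 8 := by
    have h := Real.rpow_le_rpow (by norm_num) (by linarith : ((8 : ℝ) ^ 4) ≤ R) (by norm_num : (0 : ℝ) ≤ 1 / 4)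
    have h' : ((8 : ℝ) ^ (4 : ℕ)) ^ (1 / 4 : ℝ) = 8 := by
      rw [← Real.rpow_natCast, ← Real.rpow_mul (by norm_num)]
      norm_num
    rw [h'] at h
    have h9 := inv_anti₀ (by norm_num : (0 : ℝ) < 8) h
    rw [Real.rpow_neg hR0.le, show (1 / 8 : ℝ) = 8⁻¹ by norm_num]
    exact h9
  have hy1 : ‖y.2.1‖ ≤ r0 := hy.1
  have hy2 : |Ep G y.2| ≤ 1 / 4 := by
    have h := hy.2
    linarith
  obtain ⟨hW, -, -, ⟨b, hb⟩, hc1, hc2, hc3, hder⟩ := h1 R G Φ y.1 y.2 1 (Complex.I • 1) (by linarith) hO hy1 hy2 (by rw [Real.rpow_zero]; exact hLag)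
  obtain ⟨W, hWd⟩ : ∃ W : ℝ → V d → ℂ, W = fun s z => bt G Φ ch ζ1 R 1 (Complex.I • 1) y.2 s (y.1⁻¹ • z) := ⟨_, rfl⟩
  obtain ⟨E, hEd⟩ : ∃ E : ℝ → V d → ℂ, E = fun s z => Eb G Φ ch ζ1 R 1 (Complex.I • 1) y.2 s (y.1⁻¹ • z) := ⟨_, rfl⟩
  obtain ⟨ε, hεd⟩ : ∃ ε : ℝ, ε = R ^ ((-((d : ℝ) / 2) - 1 + C1 * ζ1) / 2) := ⟨_, rfl⟩
  have hε0 : 0 ≤ ε := by rw [hεd]; positivity
  have hε2 : ε ^ 2 = R ^ (-((d : ℝ) / 2) - 1 + C1 * ζ1) := by
    rw [hεd, ← Real.rpow_natCast, ← Real.rpow_mul hR0.le]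
    congr 1
    push_cast
    ring
  have hen := h2 d Γ K k B G hK hcls ⊥ univ univ (AMAD_Dm Γ d) R 1 ε b W (fun s z => -Complex.I * E s z) hR1' zero_le_one hε0
    (fun s hs => by
      obtain ⟨f1, f2, f3, f4, f5⟩ := hW s hs
      rw [hWd, hEd]
      refine ⟨f1, f2, AMAD_mul _ _ f3, ?_⟩
      rw [AMAD_nnc, norm_neg, Complex.norm_I, one_pow, one_mul, hε2]
      exact f5)
    (fun s hs z _ hne => by
      refine hb s hs z ?_
      rcases hne with hne | hne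
      · left
        rw [hWd] at hne
        exact hne
      · right
        intro h
        apply hne
        rw [hEd]
        show -Complex.I * Eb G Φ ch ζ1 R 1 (Complex.I • 1) y.2 s (y.1⁻¹ • z) = 0
        rw [h, mul_zero])
    (by rw [hWd]; exact hc1.continuousOn) (by rw [hWd]; exact hc2.continuousOn)
    (by rw [hEd]; exact (continuous_const.mul hc3).continuousOn)
    (fun s _ z => by
      have h := hder s z
      rw [hWd, hEd]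
      show HasDerivAt _ (-(Complex.I * Hop G R (fun z => bt G Φ ch ζ1 R 1 (Complex.I • 1) y.2 s (y.1⁻¹ • z)) z) + -Complex.I * Eb G Φ ch ζ1 R 1 (Complex.I • 1) y.2 s (y.1⁻¹ • z)) s
      rw [neg_mul]
      exact h)
  rw [one_mul] at hen
  obtain ⟨c, hcd⟩ : ∃ c : ℝ, c = χ y.2.1 * cR d ch ζ R := ⟨_, rfl⟩
  obtain ⟨-, -, -, -, -, -, -, -, hcR0, hcR, -⟩ := h13 R (by linarith)
  have hχ := hPU.bd y.2.1
  have hc0 : 0 ≤ c := by rw [hcd]; exact mul_nonneg hχ.1 hcR0.le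
  have hcR' : c ≤ R ^ (3 * (d : ℝ) / 4) := by
    rw [hcd]
    calc χ y.2.1 * cR d ch ζ R ≤ 1 * cR d ch ζ R := mul_le_mul_of_nonneg_right hχ.2 hcR0.le
      _ ≤ _ := by rw [one_mul]; exact hcR
  have hpsi : ∀ s, psi G Φ χ ch ζ ζ1 R s y = fun z => (c : ℂ) * W s z := by
    intro s
    funext z
    rw [hWd, hcd]
    rfl
  have hFH : ∀ s ∈ Icc (0 : ℝ) 1, FH (⊥ : Subgroup Γ) univ (psi G Φ χ ch ζ ζ1 R s y) := by
    intro s hs
    rw [hpsi s]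
    refine AMAD_mul _ _ ?_
    rw [hWd]
    exact (hW s hs).1
  have hnn : ∀ s, nn G univ (psi G Φ χ ch ζ ζ1 R s y) = c ^ 2 * nn G univ (W s) := by
    intro s
    rw [hpsi s, AMAD_nnc, Complex.norm_real, Real.norm_of_nonneg hc0]
  have hWnn : ∀ s, 0 ≤ nn G univ (W s) := fun s => integral_nonneg fun z => by positivity
  have h1n : nn G univ (psi G Φ χ ch ζ ζ1 R 1 y) ≤ (Real.sqrt (nn G univ (psi G Φ χ ch ζ ζ1 R 0 y)) + c * ε) ^ 2 := by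
    rw [hnn 1, hnn 0, Real.sqrt_mul (sq_nonneg c), Real.sqrt_sq hc0, ← mul_add, mul_pow]
    refine mul_le_mul_of_nonneg_left ?_ (sq_nonneg c)
    calc nn G univ (W 1) = Real.sqrt (nn G univ (W 1)) ^ 2 := (Real.sq_sqrt (hWnn 1)).symm
      _ ≤ _ := pow_le_pow_left₀ (Real.sqrt_nonneg _) hen 2
  refine ⟨hFH 1 ⟨zero_le_one, le_rfl⟩, ?_⟩
  -- the difference at the time zero
  obtain ⟨-, -, -, hdF, hpf1, hpf2⟩ := h10 R 0 G Φ (by linarith) hO (by norm_num)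
  have hpk := hdF.pk y hy
  rw [hO.flow.zero] at hpk
  obtain ⟨-, hDFH, -, hDn⟩ := h5 G hK hcls 0 (C10 * ζ1) (R ^ (-1 : ℝ)) R y.2 (fun w => fP G Φ χ ch ζ ζ1 R 0 y w - fG G χ ch ζ R y w) y.1 hy1 hR1'
    (by positivity) (by linarith) (by positivity) hpk
  have hdiff : (fun z => (fun w => fP G Φ χ ch ζ ζ1 R 0 y w - fG G χ ch ζ R y w) (y.1⁻¹ • z)) = fun z => psi G Φ χ ch ζ ζ1 R 0 y z - Gp G χ ch ζ R y z := by
    funext z
    rfl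
  rw [hdiff] at hDFH hDn
  have hGp : (fun z => psi G Φ χ ch ζ ζ1 R 0 y z - (fun z => psi G Φ χ ch ζ ζ1 R 0 y z - Gp G χ ch ζ R y z) z) = Gp G χ ch ζ R y := by
    funext z
    show psi G Φ χ ch ζ ζ1 R 0 y z - (psi G Φ χ ch ζ ζ1 R 0 y z - Gp G χ ch ζ R y z) = _
    ring
  have hFH0 := hFH 0 ⟨le_rfl, zero_le_one⟩
  have hGpFH : FH (⊥ : Subgroup Γ) univ (Gp G χ ch ζ R y) := by
    have h := AMAD_sub _ _ hFH0 hDFH
    rw [hGp] at h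
    exact h
  have hn0 := AMAD_tri G hcpt (psi G Φ χ ch ζ ζ1 R 0 y) (Gp G χ ch ζ R y) hFH0 hGpFH (R ^ (-(1 / 4) : ℝ)) hu0
  have hN : nn G univ (Gp G χ ch ζ R y) ≤ (R / (2 * Real.pi)) ^ d := by
    have h := (h4 R G (by linarith) hcls).2.2.2.2.1 y
    have h' : nn G univ (Gp G χ ch ζ R y) = χ y.2.1 ^ 2 * (R / (2 * Real.pi)) ^ d := by
      rw [← h]
      unfold nn
      rw [Measure.restrict_univ]
    rw [h']
    refine mul_le_of_le_one_left (by positivity) ?_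
    exact pow_le_one₀ hχ.1 hχ.2
  have hs0 : 0 ≤ nn G univ (psi G Φ χ ch ζ ζ1 R 0 y) := integral_nonneg fun z => by positivity
  have h1n' : nn G univ (psi G Φ χ ch ζ ζ1 R 1 y) ≤ (1 + R ^ (-(1 / 4) : ℝ)) * nn G univ (psi G Φ χ ch ζ ζ1 R 0 y) + (1 + (R ^ (-(1 / 4) : ℝ))⁻¹) * (c * ε) ^ 2 := by
    refine h1n.trans ((AMAD_am (R ^ (-(1 / 4) : ℝ)) _ _ hu0).trans (le_of_eq ?_))
    rw [Real.sq_sqrt hs0]
  have hP20 : 0 < P2 := by linarith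
  refine AMAD_num1 R ((R / (2 * Real.pi)) ^ d) P2 (R ^ (-(1 / 4) : ℝ)) _ _ _ _ (c * ε) C5 hu0 hu1 hN hn0 h1n' ?_ ?_ (integral_nonneg fun z => by positivity) (by positivity)
  · refine AMAD_num3 d R P2 C5 _ hR1' hP20 hP2 hC5 (by linarith) (hDn.trans (mul_le_mul_of_nonneg_left ?_ (by linarith)))
    have e1 : (R ^ (-1 : ℝ)) ^ 2 = R ^ (-2 : ℝ) := by
      rw [← Real.rpow_natCast, ← Real.rpow_mul hR0.le]
      norm_num
    rw [e1]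
    refine mul_le_of_le_one_right (by positivity) (Real.rpow_le_one_of_one_le_of_nonpos hR1' ?_)
    have hd0 : (0 : ℝ) ≤ d := Nat.cast_nonneg d
    nlinarith
  · exact AMAD_num4 d R P2 c ε (C1 * ζ1) hR1' hP20 hP2 (by linarith) hc0 hcR' hε2 hC1ζ

theorem AMAD_adm {C C' : ℝ} {A : Par} (h : Adm C' A) (h1 : 1 ≤ C) (hC : C ≤ C') : Adm C A := by
  have hz := h.z
  have hC' : 0 < C' := by linarith
  have hz1 : 0 < A.z1 := lt_of_lt_of_le (mul_pos hC' hz) h.z1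
  have hz2 : 0 < A.z2 := lt_of_lt_of_le (mul_pos hC' hz1) h.z2
  exact ⟨h.e2, (mul_le_mul_of_nonneg_right hC h.e2.le).trans h.e2', hz, (mul_le_mul_of_nonneg_right hC hz.le).trans h.z1,
    (mul_le_mul_of_nonneg_right hC hz1.le).trans h.z2, (mul_le_mul_of_nonneg_right hC hz2.le).trans h.up⟩

/-- the first row -/
theorem AMAD_us {Γ : Type} {d : ℕ} [Group Γ] [MulAction Γ (V d)] (G : V d → V d →L[ℝ] V d) (Φ : ℝ → P d → P d) (r0 : ℝ) (χ : V d → ℝ) (ch : ℝ → ℝ) (A : Par) (R : ℝ) (y x : YS Γ d) :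
    ‖conj (us G Φ r0 χ ch A R y x)‖ ≤ ‖QF G χ ch A.z R (psi G Φ χ ch A.z A.z1 R 1 y) x‖ := by
  unfold us
  split_ifs with h
  · refine le_of_eq (congrArg _ ?_)
    unfold QF
    rw [← integral_conj]
    refine integral_congr_ae (Eventually.of_forall fun z => ?_)
    simp only [map_mul, Complex.conj_conj]
  · rw [map_zero, norm_zero]
    exact norm_nonneg _

/-- the sup norm from the masses -/
theorem AMAD_sup {α : Type} [MeasurableSpace α] (μ : Measure α) (f g : α → ℂ) (a b : ℝ) (ha : 0 ≤ a) (hb : 0 ≤ b) (hg : Measurable g)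
    (h1 : ∫⁻ x, ‖f x‖ₑ ^ 2 ∂μ ≤ ENNReal.ofReal a) (h2 : ∫⁻ x, ‖g x‖ₑ ^ 2 ∂μ ≤ ENNReal.ofReal b) : ‖∫ x, f x * g x ∂μ‖ ≤ a + b := by
  have h3 : ‖∫ x, f x * g x ∂μ‖ₑ ≤ ENNReal.ofReal (a + b) := by
    refine (enorm_integral_le_lintegral_enorm _).trans ?_
    have h4 : ∫⁻ x, ‖f x * g x‖ₑ ∂μ ≤ ∫⁻ x, (‖f x‖ₑ ^ 2 + ‖g x‖ₑ ^ 2) ∂μ := by
      refine lintegral_mono fun x => ?_
      rw [enorm_mul]
      rcases le_total ‖f x‖ₑ ‖g x‖ₑ with h | h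
      · calc ‖f x‖ₑ * ‖g x‖ₑ ≤ ‖g x‖ₑ * ‖g x‖ₑ := by gcongr
          _ = ‖g x‖ₑ ^ 2 := (sq _).symm
          _ ≤ _ := le_add_self
      · calc ‖f x‖ₑ * ‖g x‖ₑ ≤ ‖f x‖ₑ * ‖f x‖ₑ := by gcongr
          _ = ‖f x‖ₑ ^ 2 := (sq _).symm
          _ ≤ _ := le_self_add
    refine h4.trans ?_
    rw [lintegral_add_right _ (hg.enorm.pow_const 2), ENNReal.ofReal_add ha hb]
    exact add_le_add h1 h2
  rw [← ofReal_norm] at h3
  exact (ENNReal.ofReal_le_ofReal_iff (by linarith)).1 h3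

theorem AMAD_proof (h1 : ALWT_stmt) (h2 : AEND_stmt) (h3 : AQAD_stmt) (h4 : AQSD_stmt) (h5 : ALPN_stmt) (h6 : ALSY_stmt) (h7 : AUMD_stmt) (h8 : AUSD_stmt)
    (h9 : ATSD_stmt) (h10 : AFMD_stmt) (h11 : AMVI_stmt) (h12 : ADMD_stmt) (h13 : ABRD_stmt) : AMAD_stmt := by
  intro d Γ _ _ K k B r0 χ hK hPU
  obtain ⟨C1, hC1, hbm⟩ := AMAD_beam h1 h2 h4 h5 h6 h10 h11 h13 d Γ K k B r0 χ hK hPU
  obtain ⟨C7, hC7, h7⟩ := h7 d Γ K k B r0 χ hK hPU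
  obtain ⟨C8, hC8, h8⟩ := h8 d Γ K k B r0 χ hK hPU
  obtain ⟨C9, hC9, h9⟩ := h9 d Γ K k B r0 χ hK hPU
  refine ⟨C1 + C7 + 2 * C8 + C9 + 8, by linarith, ?_⟩
  intro ch A hch hA
  have hz := hA.z
  have hC : 0 < C1 + C7 + 2 * C8 + C9 + 8 := by linarith
  have hz1 : 0 < A.z1 := lt_of_lt_of_le (mul_pos hC hz) hA.z1
  have hz2 : 0 < A.z2 := lt_of_lt_of_le (mul_pos hC hz1) hA.z2
  have hz28 : 8 * A.z2 ≤ 1 := le_trans (mul_le_mul_of_nonneg_right (by linarith) hz2.le) hA.up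
  have h8z2 : 2 * C8 * A.z2 ≤ 1 := le_trans (mul_le_mul_of_nonneg_right (by linarith) hz2.le) hA.up
  have hzz1 : 8 * A.z ≤ A.z1 := le_trans (mul_le_mul_of_nonneg_right (by linarith) hz.le) hA.z1
  have h1z : C1 * A.z1 ≤ A.z2 := le_trans (mul_le_mul_of_nonneg_right (by linarith) hz1.le) hA.z2
  have h8z1 : C8 * A.z1 ≤ A.z2 := le_trans (mul_le_mul_of_nonneg_right (by linarith) hz1.le) hA.z2
  have h8z : 8 * A.z1 ≤ A.z2 := le_trans (mul_le_mul_of_nonneg_right (by linarith) hz1.le) hA.z2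
  have he2 : A.e2 ≤ 1 := by
    have h := le_trans (mul_le_mul_of_nonneg_right (by linarith : (8 : ℝ) ≤ C1 + C7 + 2 * C8 + C9 + 8) hA.e2.le) hA.e2'
    linarith
  obtain ⟨R1, hR1, hbm⟩ := hbm ch A.z A.z1 hch hz (by linarith) (by linarith)
  obtain ⟨R3, hR3, h3⟩ := h3 d Γ K k B r0 χ ch A.z hK hPU hch hz (by linarith)
  obtain ⟨R4, hR4, h4⟩ := h4 d Γ K k B r0 χ ch A.z hK hPU hch hz (by linarith)
  obtain ⟨R7, hR7, h7⟩ := h7 ch A hch (AMAD_adm hA hC7 (by linarith))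
  obtain ⟨R8, hR8, h8⟩ := h8 ch A hch (AMAD_adm hA hC8 (by linarith))
  obtain ⟨R9, hR9, h9⟩ := h9 ch A hch (AMAD_adm hA hC9 (by linarith))
  have hbig : (0 : ℝ) < (1931 : ℝ) ^ (32 : ℕ) := by positivity
  refine ⟨R1 + R3 + R4 + R7 + R8 + R9 + (1931 : ℝ) ^ (32 : ℕ), by linarith, ?_⟩
  intro R G Φ y j hR hO hj
  have hRb : (1931 : ℝ) ^ (32 : ℕ) ≤ R := by linarith
  have hR16 : (16 : ℝ) ≤ R := le_trans (by norm_num) hRb
  have hR1' : 1 ≤ R := by linarith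
  have hR0 : 0 < R := by linarith
  have hcls := hO.cls
  have hD := AMAD_Dm Γ d
  obtain ⟨-, -, -, hli, hWin, -⟩ := h12 d Γ K k B G hK hcls
  obtain ⟨hGW, -, hwin⟩ := hWin r0 2 R
  obtain ⟨hKY, hKYn, -, husn0, -, hcomp, -⟩ := h7 R G Φ (by linarith) hO
  obtain ⟨hS1, -, hS3⟩ := h8 R G Φ (by linarith) hO
  have hint := fun w (hw : FP (⊥ : Subgroup Γ) univ w) => ATSD_int G r0 R ⊥ univ hli hGW hwin (fun T' => ATSD_DT T') w hw
  have hQ0 : 0 ≤ (R / (2 * Real.pi)) ^ d := by positivity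
  have hmass : ∀ (y : YS Γ d) (i : ℕ), i ≤ A.n R → ∫⁻ x, ‖usn G Φ r0 χ ch A R i y x‖ₑ ^ 2 ∂mY Γ d ≤ ENNReal.ofReal ((1 + R ^ (-(1 / 7) : ℝ)) * (R / (2 * Real.pi)) ^ d) := by
    intro y i hi
    by_cases hy : y ∈ GW Γ G r0 2 R
    swap
    · have h0 : ∀ x, ‖usn G Φ r0 χ ch A R i y x‖ₑ ^ 2 = 0 := by
        intro x
        have h : usn G Φ r0 χ ch A R i y x = 0 := by
          by_contra hne
          exact hy (husn0 i y x hne).2.1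
        rw [h, enorm_zero, zero_pow two_ne_zero]
      rw [lintegral_congr h0, lintegral_zero]
      exact bot_le
    have hFP : ∀ i, FP (⊥ : Subgroup Γ) univ (fun x => conj (usn G Φ r0 χ ch A R i y x)) := fun i => AMAD_FP _ (hKYn i) y
    have hz0 : ∀ i x, x ∉ GW Γ G r0 2 R → (fun x => conj (usn G Φ r0 χ ch A R i y x)) x = 0 := by
      intro i x hx
      have h : usn G Φ r0 χ ch A R i y x = 0 := by
        by_contra hne
        exact hx (husn0 i y x hne).2.2.1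
      show conj (usn G Φ r0 χ ch A R i y x) = 0
      rw [h, map_zero]
    obtain ⟨hpFH, hpn⟩ := hbm R G Φ y (by linarith) hO hy
    have hQF := ((h4 R G (by linarith) hcls).2.2.2.2.2.2 ⊥ univ univ hD).1 _ hpFH
    have hQn := ((h3 R G (by linarith) hcls ⊥ univ univ hD).1 _ hpFH).1
    have hbase : nP G r0 univ 2 R (fun x => conj (usn G Φ r0 χ ch A R 0 y x)) ≤ (1 + R ^ (-(1 / 4) : ℝ)) * (1 + 5 * R ^ (-(1 / 4) : ℝ)) * (R / (2 * Real.pi)) ^ d := by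
      have hle : nP G r0 univ 2 R (fun x => conj (usn G Φ r0 χ ch A R 0 y x)) ≤ nP G r0 (univ : Set Γ) 2 R (QF (Γ := Γ) G χ ch A.z R (psi G Φ χ ch A.z A.z1 R 1 y)) := by
        unfold nP
        refine integral_mono (hint _ (hFP 0)) (hint _ hQF.1) fun x => ?_
        exact pow_le_pow_left₀ (norm_nonneg _) (AMAD_us G Φ r0 χ ch A R y x) 2
      refine hle.trans (hQn.trans ?_)
      rw [mul_assoc]
      exact mul_le_mul_of_nonneg_left hpn (by positivity)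
    have hind : ∀ i, nP G r0 univ 2 R (fun x => conj (usn G Φ r0 χ ch A R i y x)) ≤
        (1 + R ^ (-(1 / 5) : ℝ)) ^ (2 * i) * nP G r0 univ 2 R (fun x => conj (usn G Φ r0 χ ch A R 0 y x)) := by
      intro i
      induction i with
      | zero => rw [mul_zero, pow_zero, one_mul]
      | succ i ih =>
        have h := (h9 R G Φ (by linarith) hO ⊥ univ univ _ hD (hFP i)).2.2.2
        have he : (fun q => ∫ x, (fun x => conj (usn G Φ r0 χ ch A R i y x)) x * conj (us G Φ r0 χ ch A R x q) ∂mY Γ d) =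
            fun q => conj (usn G Φ r0 χ ch A R (i + 1) y q) := by
          funext q
          rw [hcomp i y q]
          unfold cmZ
          rw [← integral_conj]
          refine integral_congr_ae (Eventually.of_forall fun x => ?_)
          simp only [map_mul]
        rw [he] at h
        refine h.trans ((mul_le_mul_of_nonneg_left ih (by positivity)).trans (le_of_eq ?_))
        rw [← mul_assoc, ← pow_add]
        congr 2
        ring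
    have hm := AMAD_nP G r0 R (fun x => conj (usn G Φ r0 χ ch A R i y x)) hGW (hint _ (hFP i)) (hz0 i)
    have hm2 : ∫⁻ x, ‖usn G Φ r0 χ ch A R i y x‖ₑ ^ 2 ∂mY Γ d = ENNReal.ofReal (nP G r0 univ 2 R (fun x => conj (usn G Φ r0 χ ch A R i y x))) := by
      rw [← hm]
      refine lintegral_congr fun x => ?_
      rw [RCLike.enorm_conj]
    rw [hm2]
    refine ENNReal.ofReal_le_ofReal ?_
    have hjl : (i : ℝ) ≤ Real.log R := by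
      have hlog : 0 ≤ Real.log R := Real.log_nonneg hR1'
      have h1 : (i : ℝ) ≤ (A.n R : ℝ) := by exact_mod_cast hi
      have h2 : (A.n R : ℝ) ≤ A.e2 * Real.log R := Nat.floor_le (mul_nonneg hA.e2.le hlog)
      have h3 : A.e2 * Real.log R ≤ 1 * Real.log R := mul_le_mul_of_nonneg_right he2 hlog
      linarith
    have hnum := AMAD_num2 R hRb i hjl
    calc nP G r0 univ 2 R (fun x => conj (usn G Φ r0 χ ch A R i y x)) ≤ (1 + R ^ (-(1 / 5) : ℝ)) ^ (2 * i) * nP G r0 univ 2 R (fun x => conj (usn G Φ r0 χ ch A R 0 y x)) := hind i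
      _ ≤ (1 + R ^ (-(1 / 5) : ℝ)) ^ (2 * i) * ((1 + R ^ (-(1 / 4) : ℝ)) * (1 + 5 * R ^ (-(1 / 4) : ℝ)) * (R / (2 * Real.pi)) ^ d) := mul_le_mul_of_nonneg_left hbase (by positivity)
      _ = (1 + R ^ (-(1 / 5) : ℝ)) ^ (2 * i) * ((1 + R ^ (-(1 / 4) : ℝ)) * (1 + 5 * R ^ (-(1 / 4) : ℝ))) * (R / (2 * Real.pi)) ^ d := by ring
      _ ≤ _ := mul_le_mul_of_nonneg_right hnum hQ0
  refine ⟨hmass y j hj, ?_⟩
  intro x
  rcases j with _ | j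
  · refine (hS1 y x).trans (Real.rpow_le_rpow_of_exponent_le hR1' (by linarith))
  · rw [hcomp j y x]
    unfold cmZ
    refine (AMAD_sup (mY Γ d) _ _ _ _ (by positivity) (by positivity) hKY.meas.of_uncurry_right (hmass y j (by omega)) (hS3 x).2).trans ?_
    have e1 : (1 + R ^ (-(1 / 7) : ℝ)) * (R / (2 * Real.pi)) ^ d ≤ 2 * R ^ (d : ℝ) := by
      rw [Real.rpow_natCast]
      have h1 : R ^ (-(1 / 7) : ℝ) ≤ 1 := Real.rpow_le_one_of_one_le_of_nonpos hR1' (by norm_num)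
      have h2 : R / (2 * Real.pi) ≤ R := div_le_self hR0.le (by linarith [Real.two_le_pi])
      have h3 : (R / (2 * Real.pi)) ^ d ≤ R ^ d := pow_le_pow_left₀ (by positivity) h2 d
      exact mul_le_mul (by linarith) h3 hQ0 (by norm_num)
    have e2 : R ^ ((d : ℝ) + C8 * A.z2) ≤ R ^ ((d : ℝ) + 1 / 2) := Real.rpow_le_rpow_of_exponent_le hR1' (by linarith)
    have e3 : 4 ≤ R ^ (1 / 2 : ℝ) := by
      have h := Real.rpow_le_rpow (by norm_num) hR16 (by norm_num : (0 : ℝ) ≤ 1 / 2)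
      have h' : (16 : ℝ) ^ (1 / 2 : ℝ) = 4 := by
        rw [show (16 : ℝ) = (4 : ℝ) ^ (2 : ℕ) by norm_num, ← Real.rpow_natCast, ← Real.rpow_mul (by norm_num)]
        norm_num
      rwa [h'] at h
    have e4 : R ^ ((d : ℝ) + 1 / 2) = R ^ (d : ℝ) * R ^ (1 / 2 : ℝ) := Real.rpow_add hR0 _ _
    have e5 : R ^ ((d : ℝ) + 1) = R ^ (d : ℝ) * (R ^ (1 / 2 : ℝ) * R ^ (1 / 2 : ℝ)) := by
      rw [← Real.rpow_add hR0, ← Real.rpow_add hR0]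
      norm_num
    rw [e4] at e2
    rw [e5]
    have e6 : 0 < R ^ (d : ℝ) := Real.rpow_pos_of_pos hR0 _
    have e7 : 2 + R ^ (1 / 2 : ℝ) ≤ R ^ (1 / 2 : ℝ) * R ^ (1 / 2 : ℝ) := by nlinarith
    have e8 := mul_le_mul_of_nonneg_left e7 e6.le
    nlinarith

end

end Pool.Agent.VD
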