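import Pool.Agent.helper84.VD.SpecB5

/-!
# Project VD (MP_07c750_an), row DLP: the determinant is Lipschitz on balls
-/

set_option autoImplicit false

open scoped ContDiff Topology InnerProductSpace
open MeasureTheory Filter Set

namespace Pool.Agent.VD

noncomputable section

theorem DLP_prod {ι : Type} [DecidableEq ι] (a b : ι → ℝ) (M δ : ℝ) (hM : 1 ≤ M) (hδ : 0 ≤ δ) (ha : ∀ i, |a i| ≤ M) (hb : ∀ i, |b i| ≤ M)
    (hab : ∀ i, |a i - b i| ≤ δ) (s : Finset ι) : |∏ i ∈ s, a i| ≤ M ^ s.card ∧ |∏ i ∈ s, b i| ≤ M ^ s.card ∧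
      |∏ i ∈ s, a i - ∏ i ∈ s, b i| ≤ s.card * M ^ s.card * δ := by
  induction s using Finset.induction_on with
  | empty => simp
  | insert k s hk ih =>
    obtain ⟨h1, h2, h3⟩ := ih
    have hM0 : 0 ≤ M := by linarith
    rw [Finset.prod_insert hk, Finset.prod_insert hk, Finset.card_insert_of_notMem hk]
    refine ⟨?_, ?_, ?_⟩
    · rw [abs_mul, pow_succ, mul_comm (M ^ s.card)]
      exact mul_le_mul (ha k) h1 (abs_nonneg _) hM0
    · rw [abs_mul, pow_succ, mul_comm (M ^ s.card)]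
      exact mul_le_mul (hb k) h2 (abs_nonneg _) hM0
    · have h4 : a k * ∏ i ∈ s, a i - b k * ∏ i ∈ s, b i = a k * (∏ i ∈ s, a i - ∏ i ∈ s, b i) + (a k - b k) * ∏ i ∈ s, b i := by ring
      have hMc : 0 ≤ M ^ s.card := by positivity
      calc |a k * ∏ i ∈ s, a i - b k * ∏ i ∈ s, b i| ≤ |a k| * |∏ i ∈ s, a i - ∏ i ∈ s, b i| + |a k - b k| * |∏ i ∈ s, b i| := by
            rw [h4, ← abs_mul, ← abs_mul]
            exact abs_add_le _ _
        _ ≤ M * (s.card * M ^ s.card * δ) + δ * M ^ s.card := by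
            refine add_le_add (mul_le_mul (ha k) h3 (abs_nonneg _) hM0) (mul_le_mul (hab k) h2 (abs_nonneg _) hδ)
        _ ≤ M * (s.card * M ^ s.card * δ) + M * (M ^ s.card * δ) := by
            have h5 : 0 ≤ M ^ s.card * δ := mul_nonneg hMc hδ
            nlinarith
        _ = ((s.card + 1 : ℕ) : ℝ) * M ^ (s.card + 1) * δ := by
            push_cast
            ring

theorem DLP_det (d : ℕ) (A A' : Matrix (Fin d) (Fin d) ℝ) (M δ : ℝ) (hM : 1 ≤ M) (hδ : 0 ≤ δ) (hA : ∀ i j, |A i j| ≤ M) (hA' : ∀ i j, |A' i j| ≤ M)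
    (hd : ∀ i j, |A i j - A' i j| ≤ δ) : |A.det - A'.det| ≤ (d.factorial : ℝ) * (d * M ^ d * δ) := by
  rw [Matrix.det_apply, Matrix.det_apply, ← Finset.sum_sub_distrib]
  refine (Finset.abs_sum_le_sum_abs _ _).trans ?_
  have h : ∀ σ ∈ (Finset.univ : Finset (Equiv.Perm (Fin d))), |Equiv.Perm.sign σ • ∏ i, A (σ i) i - Equiv.Perm.sign σ • ∏ i, A' (σ i) i| ≤ d * M ^ d * δ := by
    intro σ _
    rw [← smul_sub]
    have h1 := (DLP_prod (fun i => A (σ i) i) (fun i => A' (σ i) i) M δ hM hδ (fun i => hA _ _) (fun i => hA' _ _) (fun i => hd _ _) Finset.univ).2.2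
    rw [Finset.card_univ, Fintype.card_fin] at h1
    rcases Int.units_eq_one_or (Equiv.Perm.sign σ) with h2 | h2
    · rw [h2, one_smul]
      exact h1
    · rw [h2, Units.neg_smul, one_smul, abs_neg]
      exact h1
  refine (Finset.sum_le_card_nsmul _ _ _ h).trans (le_of_eq ?_)
  rw [Finset.card_univ, Fintype.card_perm, Fintype.card_fin, nsmul_eq_mul]

theorem DLP_proof : DLP_stmt := by
  intro d
  have h0 : (0 : ℝ) ≤ (d.factorial : ℝ) * d := by positivity
  refine ⟨(d.factorial : ℝ) * d + 1, by linarith, ?_⟩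
  intro X X' M hM hX hX'
  obtain ⟨T, hT⟩ : ∃ T : (V d →L[ℝ] V d) → Matrix (Fin d) (Fin d) ℝ, ∀ Y, T Y = LinearMap.toMatrix (EuclideanSpace.basisFun (Fin d) ℝ).toBasis (EuclideanSpace.basisFun (Fin d) ℝ).toBasis (Y : V d →ₗ[ℝ] V d) := ⟨_, fun _ => rfl⟩
  have hdet : ∀ Y : V d →L[ℝ] V d, Y.det = (T Y).det := by
    intro Y
    rw [hT, LinearMap.det_toMatrix]
  have hent : ∀ (Y : V d →L[ℝ] V d) i j, T Y i j = Y (EuclideanSpace.single j 1) i := by
    intro Y i j
    rw [hT, LinearMap.toMatrix_apply]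
    simp
  have hbd : ∀ (Y : V d →L[ℝ] V d) i j, |Y (EuclideanSpace.single j 1) i| ≤ ‖Y‖ := by
    intro Y i j
    have h1 : |Y (EuclideanSpace.single j 1) i| ≤ ‖Y (EuclideanSpace.single j 1)‖ := by
      rw [← Real.norm_eq_abs]
      exact PiLp.norm_apply_le _ i
    refine h1.trans ((Y.le_opNorm _).trans ?_)
    rw [EuclideanSpace.norm_single, norm_one, mul_one]
  rw [hdet X, hdet X']
  have h1 := DLP_det d (T X) (T X') M ‖X - X'‖ hM (norm_nonneg _) (fun i j => by rw [hent]; exact (hbd X i j).trans hX)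
    (fun i j => by rw [hent]; exact (hbd X' i j).trans hX') (fun i j => by
      rw [hent, hent]
      have h2 := hbd (X - X') i j
      simpa using h2)
  refine h1.trans ?_
  have h3 : 0 ≤ M ^ d * ‖X - X'‖ := by positivity
  calc (d.factorial : ℝ) * (d * M ^ d * ‖X - X'‖) = ((d.factorial : ℝ) * d) * (M ^ d * ‖X - X'‖) := by ring
    _ ≤ ((d.factorial : ℝ) * d + 1) * (M ^ d * ‖X - X'‖) := mul_le_mul_of_nonneg_right (by linarith) h3
    _ = _ := by ring

end

end Pool.Agent.VD
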